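import Mathlib
set_option autoImplicit false

/-! Quadratic forms of oscillatory integrals `c f s x = ∫ e^{2πi(⟨x,ξ⟩ - s|ξ|²)} f(ξ) dμ(ξ)` with
respect to a Gaussian in space and a finite measure `ν` in time. -/

namespace Pool.Agent.Q261.ST

open MeasureTheory Complex Set Filter Topology
open scoped ENNReal NNReal RealInnerProductSpace

variable {V : Type*} [NormedAddCommGroup V] [InnerProductSpace ℝ V] [FiniteDimensional ℝ V]
  [MeasurableSpace V] [BorelSpace V]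

/-- the phase -/
noncomputable def ph (s : ℝ) (x ξ : V) : ℂ := cexp ((2 * Real.pi * (⟪x, ξ⟫ - s * ‖ξ‖ ^ 2) : ℝ) * I)

lemma norm_ph (s : ℝ) (x ξ : V) : ‖ph s x ξ‖ = 1 := by
  unfold ph
  exact Complex.norm_exp_ofReal_mul_I _

lemma continuous_ph : Continuous (fun p : (ℝ × V) × V => ph p.1.1 p.1.2 p.2) := by
  unfold ph
  fun_prop

/-- the Fourier transform of the measure in time -/
noncomputable def nuhat (ν : Measure ℝ) (τ : ℝ) : ℂ := ∫ s, cexp ((2 * Real.pi * (-s * τ) : ℝ) * I) ∂ν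

lemma norm_e (t : ℝ) : ‖cexp ((t : ℂ) * I)‖ = 1 := Complex.norm_exp_ofReal_mul_I t

/-- the Gaussian weight -/
noncomputable def wt (x : V) : ℝ := Real.exp (-(Real.pi * ‖x‖ ^ 2))

lemma wt_pos (x : V) : 0 < wt x := Real.exp_pos _

lemma continuous_wt : Continuous (wt : V → ℝ) := by
  unfold wt
  fun_prop

lemma wt_integrable : Integrable (wt : V → ℝ) := by
  have h := GaussianFourier.integrable_cexp_neg_mul_sq_norm_add (V := V)
    (b := (Real.pi : ℂ)) (by simpa using Real.pi_pos) 0 0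
  have h2 := h.norm
  refine h2.congr (Eventually.of_forall fun x => ?_)
  simp only [wt]
  rw [Complex.norm_exp]
  congr 1
  simp only [zero_mul, add_zero]
  norm_cast
  simp

lemma wt_fourier (ζ : V) : ∫ x : V, ((wt x : ℝ) : ℂ) * cexp ((2 * Real.pi * ⟪x, ζ⟫ : ℝ) * I) =
    ((wt ζ : ℝ) : ℂ) := by
  have h := GaussianFourier.integral_cexp_neg_mul_sq_norm_add (V := V)
    (b := (Real.pi : ℂ)) (by simpa using Real.pi_pos) (2 * Real.pi * I) ζ
  have hpi : (Real.pi : ℂ) ≠ 0 := by exact_mod_cast Real.pi_ne_zero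
  rw [div_self hpi, Complex.one_cpow, one_mul] at h
  have e1 : (2 * (Real.pi : ℂ) * I) ^ 2 * ‖ζ‖ ^ 2 / (4 * Real.pi) = ((-(Real.pi * ‖ζ‖ ^ 2) : ℝ) : ℂ) := by
    field_simp
    push_cast
    linear_combination (4 * (Real.pi : ℂ) * ‖ζ‖ ^ 2) * Complex.I_sq
  rw [e1] at h
  unfold wt
  rw [Complex.ofReal_exp, ← h]
  congr 1
  funext x
  rw [Complex.ofReal_exp, ← Complex.exp_add]
  congr 1
  rw [real_inner_comm]
  push_cast
  ring


/-- the oscillatory integral over a measure `μ` on the frequencies -/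
noncomputable def c (μ : Measure V) (f : V → ℂ) (s : ℝ) (x : V) : ℂ := ∫ ξ, ph s x ξ * f ξ ∂μ

lemma ph_mul_conj (s : ℝ) (x ξ η : V) : ph s x ξ * (starRingEnd ℂ) (ph s x η) =
    cexp ((2 * Real.pi * ⟪x, ξ - η⟫ : ℝ) * I) *
      cexp ((2 * Real.pi * (-s * (‖ξ‖ ^ 2 - ‖η‖ ^ 2)) : ℝ) * I) := by
  unfold ph
  rw [← Complex.exp_conj, ← Complex.exp_add, ← Complex.exp_add]
  congr 1
  simp only [map_mul, Complex.conj_ofReal, Complex.conj_I, inner_sub_right]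
  push_cast
  ring

/-- the fundamental inequality: the quadratic form is controlled by the kernel -/
theorem quad (μ : Measure V) [SFinite μ] (ν : Measure ℝ) [IsFiniteMeasure ν] (f : V → ℂ)
    (hf : Integrable f μ) :
    ∫⁻ p : ℝ × V, ‖c μ f p.1 p.2‖ₑ ^ 2 * ENNReal.ofReal (wt p.2) ∂(ν.prod volume) ≤
      ∫⁻ q : V × V, ‖f q.1‖ₑ * ‖f q.2‖ₑ * (ENNReal.ofReal (wt (q.1 - q.2)) *
        ‖nuhat ν (‖q.1‖ ^ 2 - ‖q.2‖ ^ 2)‖ₑ) ∂(μ.prod μ) := by
  set F : (ℝ × V) × (V × V) → ℂ := fun P => ((wt P.1.2 : ℝ) : ℂ) *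
    ((ph P.1.1 P.1.2 P.2.1 * (starRingEnd ℂ) (ph P.1.1 P.1.2 P.2.2)) *
      (f P.2.1 * (starRingEnd ℂ) (f P.2.2))) with hF
  have hfm : AEStronglyMeasurable (fun q : V × V => f q.1 * (starRingEnd ℂ) (f q.2)) (μ.prod μ) := by
    have h2 : Integrable (fun η => (starRingEnd ℂ) (f η)) μ := by
      simpa using (Complex.conjLIE.toContinuousLinearEquiv.toContinuousLinearMap).integrable_comp hf
    exact (hf.mul_prod h2).aestronglyMeasurable
  have hfc : Integrable (fun η => (starRingEnd ℂ) (f η)) μ := by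
    simpa using (Complex.conjLIE.toContinuousLinearEquiv.toContinuousLinearMap).integrable_comp hf
  have hwi : Integrable (fun p : ℝ × V => ((wt p.2 : ℝ) : ℂ)) (ν.prod volume) := by
    have h1 : Integrable (fun _ : ℝ => (1 : ℂ)) ν := integrable_const _
    have h2 : Integrable (fun x : V => ((wt x : ℝ) : ℂ)) volume := (wt_integrable (V := V)).ofReal
    have := h1.mul_prod h2
    simpa using this
  have hbase : Integrable (fun P : (ℝ × V) × (V × V) => ((wt P.1.2 : ℝ) : ℂ) *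
      (f P.2.1 * (starRingEnd ℂ) (f P.2.2))) ((ν.prod volume).prod (μ.prod μ)) :=
    hwi.mul_prod (hf.mul_prod hfc)
  have hFi : Integrable F ((ν.prod volume).prod (μ.prod μ)) := by
    have hpm : AEStronglyMeasurable (fun P : (ℝ × V) × (V × V) =>
        ph P.1.1 P.1.2 P.2.1 * (starRingEnd ℂ) (ph P.1.1 P.1.2 P.2.2))
        ((ν.prod volume).prod (μ.prod μ)) := by
      apply Continuous.aestronglyMeasurable
      unfold ph
      fun_prop
    have h := hbase.bdd_mul hpm (c := 1) (Eventually.of_forall fun P => by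
      rw [norm_mul, RCLike.norm_conj, norm_ph, norm_ph, one_mul])
    refine h.congr (Eventually.of_forall fun P => ?_)
    simp only [hF]
    ring
  -- inner integral over frequencies
  have hin : ∀ p : ℝ × V, ∫ q, F (p, q) ∂(μ.prod μ) =
      ((wt p.2 * ‖c μ f p.1 p.2‖ ^ 2 : ℝ) : ℂ) := by
    intro p
    have e1 : (fun q : V × V => F (p, q)) = fun q => ((wt p.2 : ℝ) : ℂ) *
        ((ph p.1 p.2 q.1 * f q.1) * ((starRingEnd ℂ) (ph p.1 p.2 q.2 * f q.2))) := by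
      funext q
      simp only [hF, map_mul]
      ring
    rw [e1, integral_const_mul, integral_prod_mul (fun ξ : V => ph p.1 p.2 ξ * f ξ)
      (fun ξ : V => (starRingEnd ℂ) (ph p.1 p.2 ξ * f ξ)), integral_conj]
    unfold c
    rw [Complex.mul_conj, Complex.normSq_eq_norm_sq]
    push_cast
    ring
  have hout : ∀ q : V × V, ∫ p, F (p, q) ∂(ν.prod volume) =
      (nuhat ν (‖q.1‖ ^ 2 - ‖q.2‖ ^ 2) * ((wt (q.1 - q.2) : ℝ) : ℂ)) *
        (f q.1 * (starRingEnd ℂ) (f q.2)) := by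
    intro q
    have e1 : (fun p : ℝ × V => F (p, q)) = fun p =>
        (cexp ((2 * Real.pi * (-p.1 * (‖q.1‖ ^ 2 - ‖q.2‖ ^ 2)) : ℝ) * I) *
        (((wt p.2 : ℝ) : ℂ) * cexp ((2 * Real.pi * ⟪p.2, q.1 - q.2⟫ : ℝ) * I))) *
        (f q.1 * (starRingEnd ℂ) (f q.2)) := by
      funext p
      simp only [hF]
      rw [ph_mul_conj]
      ring
    rw [e1, integral_mul_const]
    rw [integral_prod_mul (fun s : ℝ => cexp ((2 * Real.pi * (-s * (‖q.1‖ ^ 2 - ‖q.2‖ ^ 2)) : ℝ) * I))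
      (fun x : V => ((wt x : ℝ) : ℂ) * cexp ((2 * Real.pi * ⟪x, q.1 - q.2⟫ : ℝ) * I))]
    rw [wt_fourier]
    rfl
  have hswap := integral_integral_swap (f := fun p q => F (p, q)) hFi
  simp_rw [hin, hout] at hswap
  have hL : Integrable (fun p : ℝ × V => wt p.2 * ‖c μ f p.1 p.2‖ ^ 2) (ν.prod volume) := by
    have h := hFi.integral_prod_left
    simp_rw [hin] at h
    have h2 := h.norm
    refine h2.congr (Eventually.of_forall fun p => ?_)
    simp only [Complex.norm_real, Real.norm_eq_abs]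
    exact abs_of_nonneg (mul_nonneg (wt_pos _).le (by positivity))
  have hlhs : ∫⁻ p : ℝ × V, ‖c μ f p.1 p.2‖ₑ ^ 2 * ENNReal.ofReal (wt p.2) ∂(ν.prod volume) =
      ENNReal.ofReal (∫ p : ℝ × V, wt p.2 * ‖c μ f p.1 p.2‖ ^ 2 ∂(ν.prod volume)) := by
    rw [ofReal_integral_eq_lintegral_ofReal hL
      (Eventually.of_forall fun p => mul_nonneg (wt_pos _).le (by positivity))]
    apply lintegral_congr
    intro p
    rw [ENNReal.ofReal_mul (wt_pos _).le, ENNReal.ofReal_pow (norm_nonneg _), ofReal_norm_eq_enorm,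
      mul_comm]
  rw [hlhs]
  have hle : (∫ p : ℝ × V, wt p.2 * ‖c μ f p.1 p.2‖ ^ 2 ∂(ν.prod volume)) =
      ‖∫ q, (nuhat ν (‖q.1‖ ^ 2 - ‖q.2‖ ^ 2) * ((wt (q.1 - q.2) : ℝ) : ℂ)) *
        (f q.1 * (starRingEnd ℂ) (f q.2)) ∂(μ.prod μ)‖ := by
    rw [← hswap, integral_complex_ofReal, Complex.norm_real, Real.norm_eq_abs, abs_of_nonneg]
    exact integral_nonneg fun p => mul_nonneg (wt_pos _).le (by positivity)
  rw [hle, ofReal_norm_eq_enorm]
  refine (enorm_integral_le_lintegral_enorm _).trans (lintegral_mono fun q => ?_)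
  simp only [enorm_mul]
  rw [show ‖(starRingEnd ℂ) (f q.2)‖ₑ = ‖f q.2‖ₑ by
    rw [← ofReal_norm_eq_enorm, RCLike.norm_conj, ofReal_norm_eq_enorm]]
  rw [show ‖((wt (q.1 - q.2) : ℝ) : ℂ)‖ₑ = ENNReal.ofReal (wt (q.1 - q.2)) by
    rw [← ofReal_norm_eq_enorm, Complex.norm_real, Real.norm_eq_abs, abs_of_pos (wt_pos _)]]
  apply le_of_eq
  ring

/-- the Gaussian integral with a quadratic phase -/
lemma gauss_phase (ξ : V) (σ : ℝ) :
    ‖∫ η : V, ((wt (ξ - η) : ℝ) : ℂ) * cexp ((2 * Real.pi * (-σ * (‖ξ‖ ^ 2 - ‖η‖ ^ 2)) : ℝ) * I)‖ ≤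
      Real.exp (-(4 * Real.pi * σ ^ 2 * ‖ξ‖ ^ 2 / (1 + 4 * σ ^ 2))) := by
  have hpi := Real.pi_pos
  set b : ℂ := (Real.pi : ℂ) * (1 - 2 * σ * I) with hb
  have hbre : 0 < b.re := by
    simp [hb, hpi]
  have h := GaussianFourier.integral_cexp_neg_mul_sq_norm_add (V := V) hbre (4 * Real.pi * σ * I) ξ
  have e1 : ∫ η : V, ((wt (ξ - η) : ℝ) : ℂ) *
      cexp ((2 * Real.pi * (-σ * (‖ξ‖ ^ 2 - ‖η‖ ^ 2)) : ℝ) * I) =
      ∫ v : V, cexp (-b * ‖v‖ ^ 2 + 4 * Real.pi * σ * I * ⟪ξ, v⟫) := by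
    rw [← integral_add_left_eq_self (fun η : V => ((wt (ξ - η) : ℝ) : ℂ) *
      cexp ((2 * Real.pi * (-σ * (‖ξ‖ ^ 2 - ‖η‖ ^ 2)) : ℝ) * I)) ξ]
    congr 1
    funext v
    unfold wt
    rw [show ξ - (ξ + v) = -v by abel, norm_neg, Complex.ofReal_exp, ← Complex.exp_add]
    congr 1
    rw [norm_add_sq_real]
    simp only [hb]
    push_cast
    ring
  rw [e1, h, norm_mul]
  have h1 : ‖(Real.pi / b) ^ (Module.finrank ℝ V / 2 : ℂ)‖ ≤ 1 := by
    have h2 : (Module.finrank ℝ V / 2 : ℂ) = (((Module.finrank ℝ V : ℝ) / 2 : ℝ) : ℂ) := by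
      push_cast
      ring
    rw [h2, Complex.norm_cpow_real]
    apply Real.rpow_le_one (norm_nonneg _) _ (by positivity)
    rw [norm_div, hb, norm_mul, Complex.norm_real, Real.norm_eq_abs, abs_of_pos hpi]
    have h3 : 1 ≤ ‖(1 - 2 * σ * I : ℂ)‖ := by
      have h4 := Complex.abs_re_le_norm (1 - 2 * σ * I : ℂ)
      have h5 : (1 - 2 * σ * I : ℂ).re = 1 := by simp
      rw [h5, abs_one] at h4
      exact h4
    rw [div_le_one (by positivity)]
    nlinarith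
  have h2 : ‖cexp ((4 * Real.pi * σ * I) ^ 2 * ‖ξ‖ ^ 2 / (4 * b))‖ =
      Real.exp (-(4 * Real.pi * σ ^ 2 * ‖ξ‖ ^ 2 / (1 + 4 * σ ^ 2))) := by
    rw [Complex.norm_exp]
    congr 1
    have hne : (1 - 2 * (σ : ℂ) * I) ≠ 0 := by
      intro h0
      have := congrArg Complex.re h0
      simp at this
    have hpc : (Real.pi : ℂ) ≠ 0 := by exact_mod_cast hpi.ne'
    have hne2 : (1 + 4 * (σ : ℂ) ^ 2) ≠ 0 := by
      have : (0 : ℝ) < 1 + 4 * σ ^ 2 := by positivity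
      exact_mod_cast this.ne'
    have e2 : (4 * (Real.pi : ℂ) * σ * I) ^ 2 * ‖ξ‖ ^ 2 / (4 * b) =
        ((-(4 * Real.pi * σ ^ 2 * ‖ξ‖ ^ 2 / (1 + 4 * σ ^ 2)) : ℝ) : ℂ) +
        ((-(8 * Real.pi * σ ^ 3 * ‖ξ‖ ^ 2 / (1 + 4 * σ ^ 2)) : ℝ) : ℂ) * I := by
      have hb0 : (4 * b) ≠ 0 := mul_ne_zero (by norm_num) (by rw [hb]; exact mul_ne_zero hpc hne)
      rw [div_eq_iff hb0, hb]
      push_cast
      have e3 : -(4 * (Real.pi : ℂ) * σ ^ 2 * ‖ξ‖ ^ 2 / (1 + 4 * σ ^ 2)) +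
          -(8 * (Real.pi : ℂ) * σ ^ 3 * ‖ξ‖ ^ 2 / (1 + 4 * σ ^ 2)) * I =
          -(4 * (Real.pi : ℂ) * σ ^ 2 * ‖ξ‖ ^ 2 * (1 + 2 * σ * I)) / (1 + 4 * σ ^ 2) := by
        field_simp
        ring
      rw [e3, div_mul_eq_mul_div, eq_div_iff hne2]
      linear_combination (16 * (Real.pi : ℂ) ^ 2 * σ ^ 2 * ‖ξ‖ ^ 2) * Complex.I_sq
    rw [e2]
    simp only [Complex.add_re, Complex.ofReal_re, Complex.re_ofReal_mul, Complex.I_re, mul_zero,
      add_zero]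
  rw [h2]
  calc _ ≤ 1 * Real.exp (-(4 * Real.pi * σ ^ 2 * ‖ξ‖ ^ 2 / (1 + 4 * σ ^ 2))) :=
        mul_le_mul_of_nonneg_right h1 (Real.exp_pos _).le
    _ = _ := one_mul _

/-- the second moment of the transform of `ν` on a Gaussian ball -/
theorem second (ν : Measure ℝ) [IsFiniteMeasure ν] (ξ : V) :
    ∫⁻ η : V, ENNReal.ofReal (wt (ξ - η)) * ‖nuhat ν (‖ξ‖ ^ 2 - ‖η‖ ^ 2)‖ₑ ^ 2 ≤
      ∫⁻ p : ℝ × ℝ, ENNReal.ofReal (Real.exp (-(4 * Real.pi * (p.1 - p.2) ^ 2 * ‖ξ‖ ^ 2 /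
        (1 + 4 * (p.1 - p.2) ^ 2)))) ∂(ν.prod ν) := by
  set F : V × (ℝ × ℝ) → ℂ := fun P => ((wt (ξ - P.1) : ℝ) : ℂ) *
    (cexp ((2 * Real.pi * (-P.2.1 * (‖ξ‖ ^ 2 - ‖P.1‖ ^ 2)) : ℝ) * I) *
      (starRingEnd ℂ) (cexp ((2 * Real.pi * (-P.2.2 * (‖ξ‖ ^ 2 - ‖P.1‖ ^ 2)) : ℝ) * I))) with hF
  have hwi : Integrable (fun η : V => ((wt (ξ - η) : ℝ) : ℂ)) volume := by
    have h := (wt_integrable (V := V)).comp_sub_left ξ
    exact h.ofReal
  have hFi : Integrable F (volume.prod (ν.prod ν)) := by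
    have h1 : Integrable (fun _ : ℝ × ℝ => (1 : ℂ)) (ν.prod ν) := integrable_const _
    have h2 := hwi.mul_prod h1
    have hpm : AEStronglyMeasurable (fun P : V × (ℝ × ℝ) =>
        cexp ((2 * Real.pi * (-P.2.1 * (‖ξ‖ ^ 2 - ‖P.1‖ ^ 2)) : ℝ) * I) *
        (starRingEnd ℂ) (cexp ((2 * Real.pi * (-P.2.2 * (‖ξ‖ ^ 2 - ‖P.1‖ ^ 2)) : ℝ) * I)))
        (volume.prod (ν.prod ν)) := by
      apply Continuous.aestronglyMeasurable
      fun_prop
    have h := h2.bdd_mul hpm (c := 1) (Eventually.of_forall fun P => by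
      rw [norm_mul, RCLike.norm_conj, norm_e, norm_e, one_mul])
    refine h.congr (Eventually.of_forall fun P => ?_)
    simp only [hF]
    ring
  have hin : ∀ η : V, ∫ q, F (η, q) ∂(ν.prod ν) =
      ((wt (ξ - η) * ‖nuhat ν (‖ξ‖ ^ 2 - ‖η‖ ^ 2)‖ ^ 2 : ℝ) : ℂ) := by
    intro η
    simp only [hF]
    rw [integral_const_mul, integral_prod_mul
      (fun s : ℝ => cexp ((2 * Real.pi * (-s * (‖ξ‖ ^ 2 - ‖η‖ ^ 2)) : ℝ) * I))
      (fun s : ℝ => (starRingEnd ℂ) (cexp ((2 * Real.pi * (-s * (‖ξ‖ ^ 2 - ‖η‖ ^ 2)) : ℝ) * I))),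
      integral_conj]
    unfold nuhat
    rw [Complex.mul_conj, Complex.normSq_eq_norm_sq]
    push_cast
    ring
  have hswap := integral_integral_swap (f := fun p q => F (p, q)) hFi
  simp_rw [hin] at hswap
  have hL : Integrable (fun η : V => wt (ξ - η) * ‖nuhat ν (‖ξ‖ ^ 2 - ‖η‖ ^ 2)‖ ^ 2) volume := by
    have h := hFi.integral_prod_left
    simp_rw [hin] at h
    have h2 := h.norm
    refine h2.congr (Eventually.of_forall fun p => ?_)
    simp only [Complex.norm_real, Real.norm_eq_abs]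
    exact abs_of_nonneg (mul_nonneg (wt_pos _).le (by positivity))
  have hlhs : ∫⁻ η : V, ENNReal.ofReal (wt (ξ - η)) * ‖nuhat ν (‖ξ‖ ^ 2 - ‖η‖ ^ 2)‖ₑ ^ 2 =
      ENNReal.ofReal (∫ η : V, wt (ξ - η) * ‖nuhat ν (‖ξ‖ ^ 2 - ‖η‖ ^ 2)‖ ^ 2) := by
    rw [ofReal_integral_eq_lintegral_ofReal hL
      (Eventually.of_forall fun p => mul_nonneg (wt_pos _).le (by positivity))]
    apply lintegral_congr
    intro p
    rw [ENNReal.ofReal_mul (wt_pos _).le, ENNReal.ofReal_pow (norm_nonneg _), ofReal_norm_eq_enorm]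
  rw [hlhs]
  have hle : (∫ η : V, wt (ξ - η) * ‖nuhat ν (‖ξ‖ ^ 2 - ‖η‖ ^ 2)‖ ^ 2) =
      ‖∫ q, (∫ η, F (η, q)) ∂(ν.prod ν)‖ := by
    rw [← hswap, integral_complex_ofReal, Complex.norm_real, Real.norm_eq_abs, abs_of_nonneg]
    exact integral_nonneg fun p => mul_nonneg (wt_pos _).le (by positivity)
  rw [hle, ofReal_norm_eq_enorm]
  refine (enorm_integral_le_lintegral_enorm _).trans (lintegral_mono fun q => ?_)
  rw [← ofReal_norm_eq_enorm]
  apply ENNReal.ofReal_le_ofReal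
  have e1 : ∀ η : V, F (η, q) = ((wt (ξ - η) : ℝ) : ℂ) *
      cexp ((2 * Real.pi * (-(q.1 - q.2) * (‖ξ‖ ^ 2 - ‖η‖ ^ 2)) : ℝ) * I) := by
    intro η
    simp only [hF]
    rw [← Complex.exp_conj, ← Complex.exp_add]
    congr 2
    simp only [map_mul, Complex.conj_ofReal, Complex.conj_I]
    push_cast
    ring
  simp_rw [e1]
  exact gauss_phase ξ (q.1 - q.2)

end Pool.Agent.Q261.ST
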