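import Mathlib
import Pool.Agent.Q261.ST.Kernel
set_option autoImplicit false

/-! The energy of the measure in time, the Gaussian measure of a thin shell, and the kernel bound. -/

namespace Pool.Agent.Q261.ST

open MeasureTheory Complex Set Filter Topology
open scoped ENNReal NNReal RealInnerProductSpace

variable {V : Type*} [NormedAddCommGroup V] [InnerProductSpace ℝ V] [FiniteDimensional ℝ V]
  [MeasurableSpace V] [BorelSpace V]

/-- the energy -/
lemma energy (ν : Measure ℝ) [IsFiniteMeasure ν] (h : ℝ≥0∞) (r : ℝ) (hr : 0 < r) (hr1 : r ≤ 1)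
    (hν : ∀ s : ℝ, ν (Metric.closedBall s r) ≤ h) (X : ℝ) (hX : 0 ≤ X) :
    ∫⁻ p : ℝ × ℝ, ENNReal.ofReal (Real.exp (-(4 * Real.pi * (p.1 - p.2) ^ 2 * X /
        (1 + 4 * (p.1 - p.2) ^ 2)))) ∂(ν.prod ν) ≤
      ν univ * (h + ν univ * ENNReal.ofReal (Real.exp (-(2 * r ^ 2 * X)))) := by
  have hm : Measurable fun p : ℝ × ℝ => ENNReal.ofReal (Real.exp (-(4 * Real.pi * (p.1 - p.2) ^ 2 * X /
        (1 + 4 * (p.1 - p.2) ^ 2)))) := by
    apply ENNReal.measurable_ofReal.comp
    apply Real.measurable_exp.comp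
    apply Measurable.neg
    apply Measurable.div <;> fun_prop
  rw [lintegral_prod _ hm.aemeasurable]
  have hpt : ∀ s s' : ℝ, ENNReal.ofReal (Real.exp (-(4 * Real.pi * (s - s') ^ 2 * X /
        (1 + 4 * (s - s') ^ 2)))) ≤ (Metric.closedBall s r).indicator (fun _ => (1 : ℝ≥0∞)) s' +
        ENNReal.ofReal (Real.exp (-(2 * r ^ 2 * X))) := by
    intro s s'
    by_cases hs : s' ∈ Metric.closedBall s r
    · rw [indicator_of_mem hs]
      refine le_trans ?_ le_self_add
      rw [← ENNReal.ofReal_one]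
      apply ENNReal.ofReal_le_ofReal
      rw [Real.exp_le_one_iff, neg_nonpos]
      have := Real.pi_pos
      positivity
    · rw [indicator_of_notMem hs, zero_add]
      apply ENNReal.ofReal_le_ofReal
      apply Real.exp_le_exp.2
      rw [neg_le_neg_iff, le_div_iff₀ (by positivity)]
      rw [Metric.mem_closedBall, Real.dist_eq, not_le] at hs
      have h1 : r ^ 2 ≤ (s - s') ^ 2 := by
        rw [← sq_abs (s - s'), abs_sub_comm]
        exact pow_le_pow_left₀ hr.le hs.le 2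
      have h2 : r ^ 2 ≤ 1 := by nlinarith
      have h3 : 2 * r ^ 2 * (1 + 4 * (s - s') ^ 2) ≤ 4 * Real.pi * (s - s') ^ 2 := by
        have h4 := Real.pi_gt_three
        nlinarith [sq_nonneg (s - s'), mul_nonneg (sub_nonneg.2 h2) (sq_nonneg (s - s'))]
      nlinarith [mul_le_mul_of_nonneg_right h3 hX]
  calc ∫⁻ s, ∫⁻ s', ENNReal.ofReal (Real.exp (-(4 * Real.pi * (s - s') ^ 2 * X /
        (1 + 4 * (s - s') ^ 2)))) ∂ν ∂ν
      ≤ ∫⁻ s, (h + ν univ * ENNReal.ofReal (Real.exp (-(2 * r ^ 2 * X)))) ∂ν := by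
        apply lintegral_mono
        intro s
        refine (lintegral_mono (hpt s)).trans ?_
        rw [lintegral_add_right _ measurable_const, lintegral_indicator Metric.isClosed_closedBall.measurableSet,
          lintegral_const, lintegral_const, Measure.restrict_apply_univ, one_mul]
        exact add_le_add (hν s) (le_of_eq (mul_comm _ _))
    _ = _ := by rw [lintegral_const, mul_comm]

/-- the wide Gaussian -/
noncomputable def W (x : V) : ℝ≥0∞ := ENNReal.ofReal (Real.exp (-(Real.pi / 2 * ‖x‖ ^ 2)))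

/-- its integral -/
noncomputable def D (V : Type*) [NormedAddCommGroup V] [InnerProductSpace ℝ V]
  [FiniteDimensional ℝ V] [MeasurableSpace V] [BorelSpace V] : ℝ≥0∞ := ∫⁻ x : V, W x

lemma measurable_W : Measurable (W : V → ℝ≥0∞) := by
  unfold W
  fun_prop

lemma D_lt_top : D V < ⊤ := by
  unfold D W
  have h := GaussianFourier.integrable_cexp_neg_mul_sq_norm_add (V := V)
    (b := ((Real.pi / 2 : ℝ) : ℂ)) (by rw [Complex.ofReal_re]; positivity) 0 0
  have h2 := h.norm
  have h3 : Integrable (fun x : V => Real.exp (-(Real.pi / 2 * ‖x‖ ^ 2))) := by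
    refine h2.congr (Eventually.of_forall fun x => ?_)
    beta_reduce
    rw [Complex.norm_exp]
    congr 1
    simp only [zero_mul, add_zero]
    norm_cast
    simp
  have h4 := h3.lintegral_lt_top
  exact h4

lemma wt_le_W {ξ η : V} {l : ℝ} (hl : ‖l • η - η‖ ≤ 1) :
    ENNReal.ofReal (wt (ξ - η)) ≤ ENNReal.ofReal (Real.exp Real.pi) * W (ξ - l • η) := by
  unfold wt W
  rw [← ENNReal.ofReal_mul (Real.exp_pos _).le, ← Real.exp_add]
  apply ENNReal.ofReal_le_ofReal
  apply Real.exp_le_exp.2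
  have h1 : ‖ξ - l • η‖ ^ 2 ≤ 2 * ‖ξ - η‖ ^ 2 + 2 := by
    have h2 : ξ - l • η = (ξ - η) - (l • η - η) := by abel
    have h3 : ‖ξ - l • η‖ ≤ ‖ξ - η‖ + 1 := by
      rw [h2]
      exact (norm_sub_le _ _).trans (by linarith)
    have h4 := norm_nonneg (ξ - l • η)
    have h5 := norm_nonneg (ξ - η)
    nlinarith [sq_nonneg (‖ξ - η‖ - 1)]
  have := Real.pi_pos
  nlinarith

lemma slab_vol (α β L X : ℝ) (hα : 0 < α) (hαβ : α ≤ β) (hL : L ≤ 1) :
    volume {l : ℝ | l ∈ Icc 1 (1 + L) ∧ α * l ^ 2 ≤ X ∧ X < β * l ^ 2} ≤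
      ENNReal.ofReal (2 * (β - α) / α) := by
  refine (Real.volume_le_diam _).trans ?_
  apply Metric.ediam_le
  have key : ∀ l₁ l₂ : ℝ, l₁ ∈ Icc 1 (1 + L) → l₂ ∈ Icc 1 (1 + L) → X < β * l₁ ^ 2 →
      α * l₂ ^ 2 ≤ X → l₁ ≤ l₂ → l₂ - l₁ ≤ 2 * (β - α) / α := by
    intro l₁ l₂ h1 h2 h3 h4 h5
    rw [le_div_iff₀ hα]
    have h6 : l₁ ≤ 2 := by linarith [h1.2]
    have h7 := h1.1
    have h8 : α * (l₂ ^ 2 - l₁ ^ 2) ≤ (β - α) * l₁ ^ 2 := by nlinarith
    have h9 : (β - α) * l₁ ^ 2 ≤ (β - α) * 4 := by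
      apply mul_le_mul_of_nonneg_left _ (by linarith)
      nlinarith
    have h10 : α * ((l₂ - l₁) * 2) ≤ α * (l₂ ^ 2 - l₁ ^ 2) := by
      apply mul_le_mul_of_nonneg_left _ hα.le
      nlinarith
    nlinarith
  intro l₁ h1 l₂ h2
  rw [edist_dist]
  apply ENNReal.ofReal_le_ofReal
  rw [Real.dist_eq]
  rcases le_total l₁ l₂ with h | h
  · rw [abs_sub_comm, abs_of_nonneg (by linarith)]
    exact key l₁ l₂ h1.1 h2.1 h1.2.2 h2.2.1 h
  · rw [abs_of_nonneg (by linarith)]
    exact key l₂ l₁ h2.1 h1.1 h2.2.2 h1.2.1 h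

lemma shell_meas (α β : ℝ) : MeasurableSet {η : V | α ≤ ‖η‖ ^ 2 ∧ ‖η‖ ^ 2 < β} := by
  have h : Measurable (fun η : V => ‖η‖ ^ 2) := by fun_prop
  exact (measurableSet_le measurable_const h).inter (measurableSet_lt h measurable_const)

lemma shell_meas2 (α β : ℝ) : MeasurableSet {p : ℝ × V | α * p.1 ^ 2 ≤ ‖p.2‖ ^ 2 ∧
    ‖p.2‖ ^ 2 < β * p.1 ^ 2} := by
  have h : Measurable (fun p : ℝ × V => ‖p.2‖ ^ 2) := by fun_prop
  have h1 : Measurable (fun p : ℝ × V => α * p.1 ^ 2) := by fun_prop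
  have h2 : Measurable (fun p : ℝ × V => β * p.1 ^ 2) := by fun_prop
  exact (measurableSet_le h1 h).inter (measurableSet_lt h h2)

lemma shell_meas3 (α β X : ℝ) : MeasurableSet {l : ℝ | α * l ^ 2 ≤ X ∧ X < β * l ^ 2} := by
  have h1 : Measurable (fun l : ℝ => α * l ^ 2) := by fun_prop
  have h2 : Measurable (fun l : ℝ => β * l ^ 2) := by fun_prop
  exact (measurableSet_le h1 measurable_const).inter (measurableSet_lt measurable_const h2)

/-- the Gaussian measure of a thin shell -/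
theorem shell (α β B L : ℝ) (hα : 0 < α) (hαβ : α ≤ β) (hB : 0 ≤ B) (hβ : β ≤ B ^ 2) (hL0 : 0 < L)
    (hL : L ≤ 1) (hLB : L * B ≤ 1) (ξ : V) :
    ∫⁻ η in {η : V | α ≤ ‖η‖ ^ 2 ∧ ‖η‖ ^ 2 < β}, ENNReal.ofReal (wt (ξ - η)) ≤
      ENNReal.ofReal (Real.exp Real.pi * (2 * (β - α) / α) / L) * D V := by
  set J : Set V := {η : V | α ≤ ‖η‖ ^ 2 ∧ ‖η‖ ^ 2 < β} with hJ
  have hJm : MeasurableSet J := shell_meas α β
  set M := ∫⁻ η in J, ENNReal.ofReal (wt (ξ - η)) with hM
  have h1 : ENNReal.ofReal L * M ≤ ∫⁻ l in Icc (1 : ℝ) (1 + L), ∫⁻ η : V,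
      ENNReal.ofReal (Real.exp Real.pi) * (J.indicator (fun _ => (1 : ℝ≥0∞)) η * W (ξ - l • η)) := by
    have h2 : ENNReal.ofReal L * M = ∫⁻ l in Icc (1 : ℝ) (1 + L), M := by
      rw [setLIntegral_const, Real.volume_Icc, mul_comm]
      congr 2
      ring
    rw [h2]
    apply setLIntegral_mono' measurableSet_Icc
    intro l hl
    rw [hM, ← lintegral_indicator hJm]
    apply lintegral_mono
    intro η
    by_cases hη : η ∈ J
    · simp only [indicator_of_mem hη, one_mul]
      apply wt_le_W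
      rw [show l • η - η = (l - 1) • η by rw [sub_smul, one_smul], norm_smul, Real.norm_eq_abs,
        abs_of_nonneg (by linarith [hl.1])]
      have h3 : ‖η‖ ≤ B := by
        have h4 : ‖η‖ ^ 2 ≤ B ^ 2 := hη.2.le.trans hβ
        exact (sq_le_sq₀ (norm_nonneg _) hB).1 h4
      calc (l - 1) * ‖η‖ ≤ L * B := by
            apply mul_le_mul (by linarith [hl.2]) h3 (norm_nonneg _) hL0.le
        _ ≤ 1 := hLB
    · simp only [indicator_of_notMem hη, zero_mul, mul_zero, le_refl]
  have h5 : ∀ l ∈ Icc (1 : ℝ) (1 + L), ∫⁻ η : V,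
      ENNReal.ofReal (Real.exp Real.pi) * (J.indicator (fun _ => (1 : ℝ≥0∞)) η * W (ξ - l • η)) ≤
      ENNReal.ofReal (Real.exp Real.pi) * ∫⁻ η : V,
        ({p : ℝ × V | α * p.1 ^ 2 ≤ ‖p.2‖ ^ 2 ∧ ‖p.2‖ ^ 2 < β * p.1 ^ 2}.indicator
          (fun _ => (1 : ℝ≥0∞)) (l, η)) * W (ξ - η) := by
    intro l hl
    have hl0 : 0 < l := by linarith [hl.1]
    rw [lintegral_const_mul' _ _ ENNReal.ofReal_ne_top]
    refine mul_le_mul' le_rfl ?_
    set φ : V → ℝ≥0∞ := fun η =>
        ({p : ℝ × V | α * p.1 ^ 2 ≤ ‖p.2‖ ^ 2 ∧ ‖p.2‖ ^ 2 < β * p.1 ^ 2}.indicator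
          (fun _ => (1 : ℝ≥0∞)) (l, η)) * W (ξ - η) with hφ
    have hφm : Measurable φ := by
      apply Measurable.mul
      · exact (measurable_const.indicator (shell_meas2 α β)).comp measurable_prodMk_left
      · exact measurable_W.comp (by fun_prop)
    have h6 : ∀ η : V, J.indicator (fun _ => (1 : ℝ≥0∞)) η * W (ξ - l • η) = φ (l • η) := by
      intro η
      simp only [hφ]
      congr 1
      by_cases hη : η ∈ J
      · rw [indicator_of_mem hη, indicator_of_mem]
        simp only [mem_setOf_eq, norm_smul, Real.norm_eq_abs, abs_of_pos hl0, mul_pow]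
        constructor
        · nlinarith [hη.1, mul_le_mul_of_nonneg_left hη.1 (sq_nonneg l)]
        · nlinarith [mul_lt_mul_of_pos_left hη.2 (pow_pos hl0 2)]
      · rw [indicator_of_notMem hη, indicator_of_notMem]
        intro hcon
        apply hη
        simp only [mem_setOf_eq, norm_smul, Real.norm_eq_abs, abs_of_pos hl0, mul_pow] at hcon
        have hl2 := pow_pos hl0 2
        constructor
        · by_contra h7
          push Not at h7
          nlinarith [mul_lt_mul_of_pos_left h7 hl2]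
        · by_contra h7
          push Not at h7
          nlinarith [mul_le_mul_of_nonneg_left h7 hl2.le]
    rw [lintegral_congr h6]
    rw [show (∫⁻ η : V, φ (l • η)) = ∫⁻ η : V, φ η ∂(Measure.map (fun η : V => l • η) volume) by
      rw [lintegral_map hφm (by fun_prop)]]
    rw [Measure.map_addHaar_smul volume hl0.ne', lintegral_smul_measure]
    have h8 : ENNReal.ofReal |(l ^ Module.finrank ℝ V)⁻¹| ≤ 1 := by
      rw [← ENNReal.ofReal_one]
      apply ENNReal.ofReal_le_ofReal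
      rw [abs_of_pos (by positivity)]
      exact inv_le_one_of_one_le₀ (one_le_pow₀ hl.1)
    calc _ ≤ 1 * ∫⁻ η : V, φ η := by
          rw [smul_eq_mul]
          exact mul_le_mul' h8 le_rfl
      _ = _ := one_mul _
  have h9 : ENNReal.ofReal L * M ≤ ENNReal.ofReal (Real.exp Real.pi) *
      (ENNReal.ofReal (2 * (β - α) / α) * D V) := by
    refine h1.trans ((setLIntegral_mono' measurableSet_Icc h5).trans ?_)
    rw [lintegral_const_mul' _ _ ENNReal.ofReal_ne_top]
    refine mul_le_mul' le_rfl ?_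
    have hSm := shell_meas2 (V := V) α β
    rw [lintegral_lintegral_swap]
    · calc ∫⁻ η : V, ∫⁻ l in Icc (1 : ℝ) (1 + L),
            ({p : ℝ × V | α * p.1 ^ 2 ≤ ‖p.2‖ ^ 2 ∧ ‖p.2‖ ^ 2 < β * p.1 ^ 2}.indicator
            (fun _ => (1 : ℝ≥0∞)) (l, η)) * W (ξ - η)
          ≤ ∫⁻ η : V, ENNReal.ofReal (2 * (β - α) / α) * W (ξ - η) := by
            apply lintegral_mono
            intro η
            dsimp only
            rw [lintegral_mul_const']
            · refine mul_le_mul' ?_ le_rfl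
              change ∫⁻ l in Icc (1 : ℝ) (1 + L), {l : ℝ | α * l ^ 2 ≤ ‖η‖ ^ 2 ∧
                ‖η‖ ^ 2 < β * l ^ 2}.indicator (fun _ => (1 : ℝ≥0∞)) l ≤ _
              have hm2 := shell_meas3 α β (‖η‖ ^ 2)
              rw [lintegral_indicator hm2, setLIntegral_const, one_mul,
                Measure.restrict_apply hm2]
              refine le_trans (measure_mono ?_) (slab_vol α β L (‖η‖ ^ 2) hα hαβ hL)
              intro l hl
              exact ⟨hl.2, hl.1⟩
            · unfold W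
              exact ENNReal.ofReal_ne_top
        _ = ENNReal.ofReal (2 * (β - α) / α) * D V := by
            rw [lintegral_const_mul' _ _ ENNReal.ofReal_ne_top]
            congr 1
            exact lintegral_sub_left_eq_self (W : V → ℝ≥0∞) ξ
    · apply Measurable.aemeasurable
      apply Measurable.mul
      · exact measurable_const.indicator hSm
      · exact measurable_W.comp (by fun_prop)
  have hLne : ENNReal.ofReal L ≠ 0 := by simpa using hL0
  have h10 : M ≤ (ENNReal.ofReal (Real.exp Real.pi) *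
      (ENNReal.ofReal (2 * (β - α) / α) * D V)) / ENNReal.ofReal L := by
    rw [ENNReal.le_div_iff_mul_le (Or.inl hLne) (Or.inl ENNReal.ofReal_ne_top), mul_comm]
    exact h9
  refine h10.trans (le_of_eq ?_)
  rw [ENNReal.ofReal_div_of_pos hL0, ENNReal.ofReal_mul (Real.exp_pos _).le, ← mul_assoc,
    ENNReal.div_eq_inv_mul, ENNReal.div_eq_inv_mul]
  ring

end Pool.Agent.Q261.ST
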