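import Mathlib
import Pool.Agent.Q261.ST.Shell
set_option autoImplicit false

/-! The kernel bound and the quadratic form on a thin shell. -/

namespace Pool.Agent.Q261.ST

open MeasureTheory Complex Set Filter Topology
open scoped ENNReal NNReal RealInnerProductSpace

variable {V : Type*} [NormedAddCommGroup V] [InnerProductSpace ℝ V] [FiniteDimensional ℝ V]
  [MeasurableSpace V] [BorelSpace V]

lemma two_mul_le (a b : ℝ≥0∞) : 2 * (a * b) ≤ a ^ 2 + b ^ 2 := by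
  rcases le_total a b with h | h
  · obtain ⟨d, rfl⟩ := exists_add_of_le h
    calc 2 * (a * (a + d)) ≤ 2 * (a * (a + d)) + d ^ 2 := le_self_add
      _ = a ^ 2 + (a + d) ^ 2 := by ring
  · obtain ⟨d, rfl⟩ := exists_add_of_le h
    calc 2 * ((b + d) * b) ≤ 2 * ((b + d) * b) + d ^ 2 := le_self_add
      _ = (b + d) ^ 2 + b ^ 2 := by ring

/-- the kernel -/
noncomputable def ker (ν : Measure ℝ) (q : V × V) : ℝ≥0∞ :=
  ENNReal.ofReal (wt (q.1 - q.2)) * ‖nuhat ν (‖q.1‖ ^ 2 - ‖q.2‖ ^ 2)‖ₑ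

lemma nuhat_neg (ν : Measure ℝ) (τ : ℝ) : ‖nuhat ν (-τ)‖ₑ = ‖nuhat ν τ‖ₑ := by
  have h : nuhat ν (-τ) = (starRingEnd ℂ) (nuhat ν τ) := by
    unfold nuhat
    rw [← integral_conj]
    congr 1
    funext s
    rw [← Complex.exp_conj]
    congr 1
    simp only [map_mul, Complex.conj_ofReal, Complex.conj_I]
    push_cast
    ring
  rw [h, ← ofReal_norm_eq_enorm, RCLike.norm_conj, ofReal_norm_eq_enorm]

lemma ker_swap (ν : Measure ℝ) (q : V × V) : ker ν q.swap = ker ν q := by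
  unfold ker
  simp only [Prod.fst_swap, Prod.snd_swap]
  rw [show ‖q.2‖ ^ 2 - ‖q.1‖ ^ 2 = -(‖q.1‖ ^ 2 - ‖q.2‖ ^ 2) by ring, nuhat_neg]
  congr 2
  unfold wt
  rw [norm_sub_rev]

lemma continuous_nuhat (ν : Measure ℝ) [IsFiniteMeasure ν] : Continuous (nuhat ν) := by
  unfold nuhat
  apply continuous_of_dominated (bound := fun _ => 1)
  · intro τ
    apply Continuous.aestronglyMeasurable
    fun_prop
  · intro τ
    exact Eventually.of_forall fun s => (norm_e _).le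
  · exact integrable_const _
  · exact Eventually.of_forall fun s => by fun_prop

lemma measurable_ker (ν : Measure ℝ) [IsFiniteMeasure ν] : Measurable (ker (V := V) ν) := by
  have h1 : Measurable (fun q : V × V => ENNReal.ofReal (wt (q.1 - q.2))) :=
    (continuous_wt.measurable.comp (measurable_fst.sub measurable_snd)).ennreal_ofReal
  have h2 : Measurable (fun q : V × V => ‖nuhat ν (‖q.1‖ ^ 2 - ‖q.2‖ ^ 2)‖ₑ) :=
    ((continuous_nuhat ν).measurable.comp ((measurable_fst.norm.pow_const 2).sub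
      (measurable_snd.norm.pow_const 2))).enorm
  exact h1.mul h2

/-- Schur's test for the quadratic form -/
theorem schur (μ : Measure V) [SFinite μ] (ν : Measure ℝ) [IsFiniteMeasure ν] (f : V → ℂ)
    (hf : Integrable f μ) (K : ℝ≥0∞) (S : Set V) (hS : ∀ᵐ ξ ∂μ, ξ ∈ S)
    (hK : ∀ ξ ∈ S, ∫⁻ η, ker ν (ξ, η) ∂μ ≤ K) :
    ∫⁻ p : ℝ × V, ‖c μ f p.1 p.2‖ₑ ^ 2 * ENNReal.ofReal (wt p.2) ∂(ν.prod volume) ≤
      K * ∫⁻ ξ, ‖f ξ‖ₑ ^ 2 ∂μ := by
  refine (quad μ ν f hf).trans ?_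
  have hfe : AEMeasurable (fun ξ => ‖f ξ‖ₑ) μ := hf.aestronglyMeasurable.enorm
  have hG : AEMeasurable (fun q : V × V => ‖f q.1‖ₑ ^ 2 * ker ν q) (μ.prod μ) := by
    have h1 : AEMeasurable (fun q : V × V => ‖f q.1‖ₑ ^ 2) (μ.prod μ) :=
      (hfe.comp_quasiMeasurePreserving Measure.quasiMeasurePreserving_fst).pow_const 2
    exact h1.mul (measurable_ker ν).aemeasurable
  have h1 : 2 * ∫⁻ q : V × V, ‖f q.1‖ₑ * ‖f q.2‖ₑ * (ENNReal.ofReal (wt (q.1 - q.2)) *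
        ‖nuhat ν (‖q.1‖ ^ 2 - ‖q.2‖ ^ 2)‖ₑ) ∂(μ.prod μ) ≤
      2 * ∫⁻ q : V × V, ‖f q.1‖ₑ ^ 2 * ker ν q ∂(μ.prod μ) := by
    rw [← lintegral_const_mul' _ _ ENNReal.ofNat_ne_top]
    calc ∫⁻ q : V × V, 2 * (‖f q.1‖ₑ * ‖f q.2‖ₑ * (ENNReal.ofReal (wt (q.1 - q.2)) *
          ‖nuhat ν (‖q.1‖ ^ 2 - ‖q.2‖ ^ 2)‖ₑ)) ∂(μ.prod μ)
        ≤ ∫⁻ q : V × V, (‖f q.1‖ₑ ^ 2 * ker ν q + ‖f q.swap.1‖ₑ ^ 2 * ker ν q.swap) ∂(μ.prod μ) := by
          apply lintegral_mono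
          intro q
          beta_reduce
          rw [ker_swap, ← add_mul, ← mul_assoc, Prod.fst_swap]
          exact mul_le_mul' (two_mul_le _ _) le_rfl
      _ = ∫⁻ q : V × V, ‖f q.1‖ₑ ^ 2 * ker ν q ∂(μ.prod μ) +
          ∫⁻ q : V × V, ‖f q.swap.1‖ₑ ^ 2 * ker ν q.swap ∂(μ.prod μ) := lintegral_add_left' hG _
      _ = _ := by
          rw [lintegral_prod_swap (fun q : V × V => ‖f q.1‖ₑ ^ 2 * ker ν q), two_mul]
  have h2 : ∫⁻ q : V × V, ‖f q.1‖ₑ * ‖f q.2‖ₑ * (ENNReal.ofReal (wt (q.1 - q.2)) *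
        ‖nuhat ν (‖q.1‖ ^ 2 - ‖q.2‖ ^ 2)‖ₑ) ∂(μ.prod μ) ≤
      ∫⁻ q : V × V, ‖f q.1‖ₑ ^ 2 * ker ν q ∂(μ.prod μ) :=
    (ENNReal.mul_le_mul_iff_right (by norm_num) ENNReal.ofNat_ne_top).1 h1
  refine h2.trans ?_
  rw [lintegral_prod _ hG]
  calc ∫⁻ ξ, ∫⁻ η, ‖f ξ‖ₑ ^ 2 * ker ν (ξ, η) ∂μ ∂μ ≤ ∫⁻ ξ, K * ‖f ξ‖ₑ ^ 2 ∂μ := by
        apply lintegral_mono_ae
        filter_upwards [hS] with ξ hξ
        rw [lintegral_const_mul]
        · rw [mul_comm]
          exact mul_le_mul' (hK ξ hξ) le_rfl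
        · exact (measurable_ker ν).comp measurable_prodMk_left
    _ = K * ∫⁻ ξ, ‖f ξ‖ₑ ^ 2 ∂μ := lintegral_const_mul'' _ (hfe.pow_const 2)

/-- the constant -/
noncomputable def C0 (V : Type*) [NormedAddCommGroup V] [InnerProductSpace ℝ V]
  [FiniteDimensional ℝ V] [MeasurableSpace V] [BorelSpace V] : ℝ :=
  120 * Real.exp Real.pi * (D V).toReal + 1

lemma C0_pos : 0 < C0 V := by
  unfold C0
  positivity

/-- the truncation factor -/
noncomputable def tau (k j : ℕ) : ℝ := min 1 (4 ^ k / 2 ^ j)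

lemma tau_pos (k j : ℕ) : 0 < tau k j := lt_min one_pos (by positivity)

/-- the Gaussian measure of a part of a shell -/
lemma shell_part (k j : ℕ) (α β : ℝ) (h1 : 16 ^ k ≤ α) (h2 : α ≤ β) (h3 : β ≤ 16 ^ (k + 1))
    (h4 : β - α ≤ 15 * 16 ^ k / 2 ^ j) (ξ : V) :
    ∫⁻ η in {η : V | α ≤ ‖η‖ ^ 2 ∧ ‖η‖ ^ 2 < β}, ENNReal.ofReal (wt (ξ - η)) ≤
      ENNReal.ofReal (C0 V * tau k j) := by
  have hα : 0 < α := lt_of_lt_of_le (by positivity) h1
  have hD : ENNReal.ofReal (D V).toReal = D V := ENNReal.ofReal_toReal D_lt_top.ne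
  have hexp : 1 ≤ Real.exp Real.pi := Real.one_le_exp Real.pi_pos.le
  have hA : ∫⁻ η in {η : V | α ≤ ‖η‖ ^ 2 ∧ ‖η‖ ^ 2 < β}, ENNReal.ofReal (wt (ξ - η)) ≤
      ENNReal.ofReal (C0 V) := by
    calc _ ≤ ∫⁻ η : V, ENNReal.ofReal (wt (ξ - η)) := setLIntegral_le_lintegral _ _
      _ ≤ ∫⁻ η : V, W (ξ - η) := by
          apply lintegral_mono
          intro η
          unfold W wt
          apply ENNReal.ofReal_le_ofReal
          apply Real.exp_le_exp.2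
          have := Real.pi_pos
          nlinarith [mul_nonneg Real.pi_pos.le (sq_nonneg ‖ξ - η‖)]
      _ = D V := lintegral_sub_left_eq_self (W : V → ℝ≥0∞) ξ
      _ ≤ ENNReal.ofReal (C0 V) := by
          rw [← hD]
          apply ENNReal.ofReal_le_ofReal
          unfold C0
          have : 0 ≤ (D V).toReal := ENNReal.toReal_nonneg
          nlinarith
  have hB : ∫⁻ η in {η : V | α ≤ ‖η‖ ^ 2 ∧ ‖η‖ ^ 2 < β}, ENNReal.ofReal (wt (ξ - η)) ≤
      ENNReal.ofReal (C0 V * (4 ^ k / 2 ^ j)) := by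
    have h5 := shell (V := V) α β (4 ^ (k + 1)) (1 / 4 ^ (k + 1)) hα h2 (by positivity)
      (by rw [← pow_mul, mul_comm, pow_mul]; norm_num; exact h3) (by positivity)
      (by rw [div_le_one (by positivity)]; exact one_le_pow₀ (by norm_num)) (by
        rw [one_div_mul_cancel (by positivity)]) ξ
    refine h5.trans ?_
    rw [← hD, ← ENNReal.ofReal_mul (by
      have : 0 ≤ β - α := by linarith
      positivity)]
    apply ENNReal.ofReal_le_ofReal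
    have h6 : 2 * (β - α) / α ≤ 30 / 2 ^ j := by
      rw [div_le_div_iff₀ hα (by positivity)]
      have h7 : (β - α) * 2 ^ j ≤ 15 * 16 ^ k := by
        rwa [le_div_iff₀ (by positivity)] at h4
      nlinarith
    have h8 : Real.exp Real.pi * (2 * (β - α) / α) / (1 / 4 ^ (k + 1)) * (D V).toReal ≤
        Real.exp Real.pi * (30 / 2 ^ j) / (1 / 4 ^ (k + 1)) * (D V).toReal := by
      gcongr
    refine h8.trans ?_
    unfold C0
    have h9 : Real.exp Real.pi * (30 / 2 ^ j) / (1 / 4 ^ (k + 1)) * (D V).toReal =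
        120 * Real.exp Real.pi * (D V).toReal * (4 ^ k / 2 ^ j) := by
      field_simp
      ring
    rw [h9]
    have h10 : (0 : ℝ) ≤ 4 ^ k / 2 ^ j := by positivity
    nlinarith
  unfold tau
  rcases min_cases (1 : ℝ) (4 ^ k / 2 ^ j) with h | h
  · rw [h.1, mul_one]
    exact hA
  · rw [h.1]
    exact hB

/-- the kernel bound -/
theorem ker_bound (ν : Measure ℝ) [IsFiniteMeasure ν] (k j : ℕ) (h a : ℝ) (ha : 0 < a) (hh : 0 ≤ h)
    (hν : ∀ s : ℝ, ν (Metric.closedBall s ((1 / 2) ^ k)) ≤ ENNReal.ofReal h)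
    (hha : ν.real univ * (h + ν.real univ * Real.exp (-(2 * 4 ^ k))) ≤ a)
    (α β : ℝ) (h1 : 16 ^ k ≤ α) (h2 : α ≤ β) (h3 : β ≤ 16 ^ (k + 1))
    (h4 : β - α ≤ 15 * 16 ^ k / 2 ^ j) (ξ : V) (hξ : 16 ^ k ≤ ‖ξ‖ ^ 2) :
    ∫⁻ η in {η : V | α ≤ ‖η‖ ^ 2 ∧ ‖η‖ ^ 2 < β}, ker ν (ξ, η) ≤
      ENNReal.ofReal (C0 V * Real.sqrt (a * tau k j)) := by
  have hτ := tau_pos k j
  have hC := C0_pos (V := V)
  set t : ℝ := Real.sqrt a / Real.sqrt (tau k j) with ht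
  have hsa : 0 < Real.sqrt a := Real.sqrt_pos.2 ha
  have hst : 0 < Real.sqrt (tau k j) := Real.sqrt_pos.2 hτ
  have ht0 : 0 < t := div_pos hsa hst
  have hpt : ∀ z : ℂ, ‖z‖ₑ ≤ ENNReal.ofReal (t / 2) + ENNReal.ofReal (1 / (2 * t)) * ‖z‖ₑ ^ 2 := by
    intro z
    rw [← ofReal_norm_eq_enorm, ← ENNReal.ofReal_pow (norm_nonneg _),
      ← ENNReal.ofReal_mul (by positivity), ← ENNReal.ofReal_add (by positivity) (by positivity)]
    apply ENNReal.ofReal_le_ofReal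
    have h5 : t / 2 + 1 / (2 * t) * ‖z‖ ^ 2 - ‖z‖ = (t - ‖z‖) ^ 2 / (2 * t) := by
      field_simp
      ring
    have h6 : 0 ≤ (t - ‖z‖) ^ 2 / (2 * t) := by positivity
    linarith
  have hM := shell_part (V := V) k j α β h1 h2 h3 h4 ξ
  have hS := second ν ξ
  have hE := energy ν (ENNReal.ofReal h) ((1 / 2) ^ k) (by positivity)
    (pow_le_one₀ (by norm_num) (by norm_num)) hν (‖ξ‖ ^ 2) (by positivity)
  have hA : ∫⁻ η : V, ENNReal.ofReal (wt (ξ - η)) * ‖nuhat ν (‖ξ‖ ^ 2 - ‖η‖ ^ 2)‖ₑ ^ 2 ≤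
      ENNReal.ofReal a := by
    refine hS.trans (hE.trans ?_)
    have h5 : ν univ = ENNReal.ofReal (ν.real univ) := by
      rw [measureReal_def, ENNReal.ofReal_toReal (measure_ne_top _ _)]
    rw [h5, ← ENNReal.ofReal_mul measureReal_nonneg, ← ENNReal.ofReal_add hh (by positivity),
      ← ENNReal.ofReal_mul measureReal_nonneg]
    apply ENNReal.ofReal_le_ofReal
    refine le_trans ?_ hha
    have h6 : Real.exp (-(2 * ((1 / 2 : ℝ) ^ k) ^ 2 * ‖ξ‖ ^ 2)) ≤ Real.exp (-(2 * 4 ^ k)) := by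
      apply Real.exp_le_exp.2
      rw [neg_le_neg_iff]
      have h7 : (((1 / 2 : ℝ) ^ k) ^ 2) * 16 ^ k = 4 ^ k := by
        rw [← pow_mul, mul_comm k 2, pow_mul, ← mul_pow]
        norm_num
      have h8 : (0 : ℝ) ≤ ((1 / 2 : ℝ) ^ k) ^ 2 := by positivity
      nlinarith
    have h9 : 0 ≤ ν.real univ := measureReal_nonneg
    gcongr
  calc ∫⁻ η in {η : V | α ≤ ‖η‖ ^ 2 ∧ ‖η‖ ^ 2 < β}, ker ν (ξ, η)
      ≤ ∫⁻ η in {η : V | α ≤ ‖η‖ ^ 2 ∧ ‖η‖ ^ 2 < β}, (ENNReal.ofReal (t / 2) * ENNReal.ofReal (wt (ξ - η)) +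
          ENNReal.ofReal (1 / (2 * t)) * (ENNReal.ofReal (wt (ξ - η)) *
            ‖nuhat ν (‖ξ‖ ^ 2 - ‖η‖ ^ 2)‖ₑ ^ 2)) := by
        apply lintegral_mono
        intro η
        unfold ker
        dsimp only
        calc _ ≤ ENNReal.ofReal (wt (ξ - η)) * (ENNReal.ofReal (t / 2) +
              ENNReal.ofReal (1 / (2 * t)) * ‖nuhat ν (‖ξ‖ ^ 2 - ‖η‖ ^ 2)‖ₑ ^ 2) :=
              mul_le_mul' le_rfl (hpt _)
          _ = _ := by ring
    _ = ENNReal.ofReal (t / 2) * (∫⁻ η in {η : V | α ≤ ‖η‖ ^ 2 ∧ ‖η‖ ^ 2 < β}, ENNReal.ofReal (wt (ξ - η))) +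
          ENNReal.ofReal (1 / (2 * t)) * ∫⁻ η in {η : V | α ≤ ‖η‖ ^ 2 ∧ ‖η‖ ^ 2 < β},
            (ENNReal.ofReal (wt (ξ - η)) * ‖nuhat ν (‖ξ‖ ^ 2 - ‖η‖ ^ 2)‖ₑ ^ 2) := by
        rw [lintegral_add_left, lintegral_const_mul' _ _ ENNReal.ofReal_ne_top,
          lintegral_const_mul' _ _ ENNReal.ofReal_ne_top]
        exact ((continuous_wt.measurable.comp (measurable_const.sub measurable_id)).ennreal_ofReal).const_mul _
    _ ≤ ENNReal.ofReal (t / 2) * ENNReal.ofReal (C0 V * tau k j) +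
          ENNReal.ofReal (1 / (2 * t)) * ENNReal.ofReal a := by
        refine add_le_add (mul_le_mul' le_rfl hM) (mul_le_mul' le_rfl ?_)
        exact (setLIntegral_le_lintegral _ _).trans hA
    _ ≤ ENNReal.ofReal (C0 V * Real.sqrt (a * tau k j)) := by
        rw [← ENNReal.ofReal_mul (by positivity), ← ENNReal.ofReal_mul (by positivity),
          ← ENNReal.ofReal_add (by positivity) (by positivity)]
        apply ENNReal.ofReal_le_ofReal
        have h5 : t * tau k j = Real.sqrt (a * tau k j) := by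
          rw [ht, Real.sqrt_mul ha.le, div_mul_eq_mul_div, div_eq_iff hst.ne', mul_assoc,
            Real.mul_self_sqrt hτ.le]
        have h6 : a / t = Real.sqrt (a * tau k j) := by
          rw [ht, Real.sqrt_mul ha.le, div_div_eq_mul_div, div_eq_iff hsa.ne']
          nlinarith [Real.mul_self_sqrt ha.le]
        have h7 : (1 : ℝ) ≤ C0 V := by
          unfold C0
          have : 0 ≤ 120 * Real.exp Real.pi * (D V).toReal := by positivity
          linarith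
        have h8 : t / 2 * (C0 V * tau k j) + 1 / (2 * t) * a =
            C0 V / 2 * (t * tau k j) + 1 / 2 * (a / t) := by
          field_simp
        rw [h8, h5, h6]
        have h9 : 0 ≤ Real.sqrt (a * tau k j) := Real.sqrt_nonneg _
        nlinarith

end Pool.Agent.Q261.ST
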