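import Mathlib
import Pool.Agent.Q261.ST.Block
set_option autoImplicit false

/-! Dyadic chaining for the partial integrals over balls. -/

namespace Pool.Agent.Q261.ST

open MeasureTheory Complex Set Filter Topology
open scoped ENNReal NNReal RealInnerProductSpace

variable {V : Type*} [NormedAddCommGroup V] [InnerProductSpace ℝ V] [FiniteDimensional ℝ V]
  [MeasurableSpace V] [BorelSpace V]

/-- the shell -/
def Sh (V : Type*) [NormedAddCommGroup V] (α β : ℝ) : Set V := {η : V | α ≤ ‖η‖ ^ 2 ∧ ‖η‖ ^ 2 < β}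

/-- the open ball of radius `√λ` -/
def Ba (V : Type*) [NormedAddCommGroup V] (l : ℝ) : Set V := {η : V | ‖η‖ ^ 2 < l}

/-- the partial integral -/
noncomputable def P (f : V → ℂ) (s : ℝ) (x : V) (l : ℝ) : ℂ := c (volume.restrict (Ba V l)) f s x

/-- the integral over a shell -/
noncomputable def pc (f : V → ℂ) (s : ℝ) (x : V) (α β : ℝ) : ℂ :=
  c (volume.restrict (Sh V α β)) f s x

lemma Ba_meas (l : ℝ) : MeasurableSet (Ba V l) := by
  have h : Measurable (fun η : V => ‖η‖ ^ 2) := by fun_prop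
  exact measurableSet_lt h measurable_const

lemma Sh_meas (α β : ℝ) : MeasurableSet (Sh V α β) := shell_meas α β

lemma Ba_finite (l : ℝ) : volume (Ba V l) < ⊤ := by
  apply Bornology.IsBounded.measure_lt_top
  apply (Metric.isBounded_closedBall (x := (0 : V)) (r := |l| + 1)).subset
  intro η hη
  rw [mem_closedBall_zero_iff]
  have h1 : ‖η‖ ^ 2 < l := hη
  have h2 : l ≤ |l| := le_abs_self l
  nlinarith [norm_nonneg η, abs_nonneg l]

lemma intBa {f : V → ℂ} (hf : MemLp f 2 volume) (l : ℝ) : IntegrableOn f (Ba V l) := by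
  have : IsFiniteMeasure (volume.restrict (Ba V l)) := ⟨by
    rw [Measure.restrict_apply_univ]
    exact Ba_finite l⟩
  exact (hf.restrict (Ba V l)).integrable one_le_two

lemma Sh_sub (α β : ℝ) : Sh V α β ⊆ Ba V β := fun _ h => h.2

lemma intSh {f : V → ℂ} (hf : MemLp f 2 volume) (α β : ℝ) : IntegrableOn f (Sh V α β) :=
  (intBa hf β).mono_set (Sh_sub α β)

lemma int_ph {f : V → ℂ} {S : Set V} (hf : IntegrableOn f S) (s : ℝ) (x : V) :
    IntegrableOn (fun ξ => ph s x ξ * f ξ) S := by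
  have h := hf.bdd_mul (c := 1) (f := fun ξ => ph s x ξ) (by
    apply Continuous.aestronglyMeasurable
    unfold ph
    fun_prop) (Eventually.of_forall fun ξ => by rw [norm_ph])
  exact h

lemma P_diff {f : V → ℂ} (hf : MemLp f 2 volume) (s : ℝ) (x : V) {α β : ℝ} (h : α ≤ β) :
    P f s x β - P f s x α = pc f s x α β := by
  unfold P pc c
  have h1 : Sh V α β = Ba V β \ Ba V α := by
    ext η
    simp only [Sh, Ba, mem_setOf_eq, mem_diff, not_lt]
    tauto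
  rw [h1, integral_diff (Ba_meas α) (int_ph (intBa hf β) s x) (fun η hη => lt_of_lt_of_le hη h)]

/-- the dyadic points -/
noncomputable def A (k j i : ℕ) : ℝ := 16 ^ k * (1 + 15 * i / 2 ^ j)

lemma A_zero (k j : ℕ) : A k j 0 = 16 ^ k := by simp [A]

lemma A_top (k : ℕ) : A k 0 1 = 16 ^ (k + 1) := by
  simp [A]
  ring

lemma A_double (k j i : ℕ) : A k (j + 1) (2 * i) = A k j i := by
  unfold A
  push_cast
  rw [pow_succ]
  field_simp

lemma A_mono (k j : ℕ) {i i' : ℕ} (h : i ≤ i') : A k j i ≤ A k j i' := by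
  unfold A
  gcongr

lemma A_ge (k j i : ℕ) : 16 ^ k ≤ A k j i := by
  rw [← A_zero k j]
  exact A_mono k j (Nat.zero_le i)

lemma A_le (k j i : ℕ) (h : i ≤ 2 ^ j) : A k j i ≤ 16 ^ (k + 1) := by
  refine (A_mono k j h).trans (le_of_eq ?_)
  unfold A
  push_cast
  field_simp
  ring

lemma A_step (k j i : ℕ) : A k j (i + 1) - A k j i = 15 * 16 ^ k / 2 ^ j := by
  unfold A
  push_cast
  field_simp
  ring

/-- the square sum at the level `j` -/
noncomputable def Q2 (f : V → ℂ) (k j : ℕ) (p : ℝ × V) : ℝ≥0∞ :=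
  ∑ i ∈ Finset.range (2 ^ j), ‖pc f p.1 p.2 (A k j i) (A k j (i + 1))‖ₑ ^ 2

/-- its square root -/
noncomputable def Q (f : V → ℂ) (k j : ℕ) (p : ℝ × V) : ℝ≥0∞ := Q2 f k j p ^ (1 / 2 : ℝ)

lemma le_Q (f : V → ℂ) (k j i : ℕ) (hi : i < 2 ^ j) (p : ℝ × V) :
    ‖pc f p.1 p.2 (A k j i) (A k j (i + 1))‖ₑ ≤ Q f k j p := by
  unfold Q
  have h1 : ‖pc f p.1 p.2 (A k j i) (A k j (i + 1))‖ₑ ^ 2 ≤ Q2 f k j p :=
    Finset.single_le_sum (f := fun i => ‖pc f p.1 p.2 (A k j i) (A k j (i + 1))‖ₑ ^ 2)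
      (fun _ _ => zero_le) (Finset.mem_range.2 hi)
  calc ‖pc f p.1 p.2 (A k j i) (A k j (i + 1))‖ₑ
      = (‖pc f p.1 p.2 (A k j i) (A k j (i + 1))‖ₑ ^ 2) ^ (1 / 2 : ℝ) := by
        rw [← ENNReal.rpow_natCast, ← ENNReal.rpow_mul]
        norm_num
    _ ≤ _ := ENNReal.rpow_le_rpow h1 (by norm_num)

lemma Q_sq (f : V → ℂ) (k j : ℕ) (p : ℝ × V) : Q f k j p ^ 2 = Q2 f k j p := by
  unfold Q
  rw [← ENNReal.rpow_natCast, ← ENNReal.rpow_mul]
  norm_num

/-- the block majorant -/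
noncomputable def M (f : V → ℂ) (k : ℕ) (p : ℝ × V) : ℝ≥0∞ := ∑' j, Q f k j p

/-- the index of `l` at the level `j` -/
noncomputable def idx (k j : ℕ) (l : ℝ) : ℕ := ⌊(l / 16 ^ k - 1) / 15 * 2 ^ j⌋₊

lemma idx_succ (k j : ℕ) (l : ℝ) :
    idx k (j + 1) l = 2 * idx k j l ∨ idx k (j + 1) l = 2 * idx k j l + 1 := by
  unfold idx
  set y : ℝ := (l / 16 ^ k - 1) / 15 * 2 ^ j with hy
  have e : (l / 16 ^ k - 1) / 15 * 2 ^ (j + 1) = 2 * y := by rw [hy, pow_succ]; ring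
  rw [e]
  rcases le_or_gt 0 y with h0 | h0
  · have h1 := Nat.floor_le h0
    have h2 := Nat.lt_floor_add_one y
    have h3 : 2 * ⌊y⌋₊ ≤ ⌊2 * y⌋₊ := by
      apply Nat.le_floor
      push_cast
      linarith
    have h4 : ⌊2 * y⌋₊ < 2 * ⌊y⌋₊ + 2 := by
      rw [Nat.floor_lt (by linarith)]
      push_cast
      linarith
    omega
  · left
    rw [Nat.floor_of_nonpos h0.le, Nat.floor_of_nonpos (by linarith)]

lemma idx_lt {k j : ℕ} {l : ℝ} (h1 : 16 ^ k ≤ l) (h2 : l < 16 ^ (k + 1)) : idx k j l < 2 ^ j := by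
  unfold idx
  have hk : (0 : ℝ) < 16 ^ k := by positivity
  have h3 : 0 ≤ (l / 16 ^ k - 1) / 15 := by
    apply div_nonneg _ (by norm_num)
    rw [sub_nonneg, one_le_div hk]
    exact h1
  have h4 : (l / 16 ^ k - 1) / 15 < 1 := by
    rw [div_lt_one (by norm_num), sub_lt_iff_lt_add, div_lt_iff₀ hk]
    calc l < 16 ^ (k + 1) := h2
      _ = (15 + 1) * 16 ^ k := by ring
  rw [Nat.floor_lt (by positivity)]
  push_cast
  have : (0 : ℝ) < 2 ^ j := by positivity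
  nlinarith

lemma A_idx_le {k j : ℕ} {l : ℝ} (h1 : 16 ^ k ≤ l) : A k j (idx k j l) ≤ l := by
  unfold A idx
  have hk : (0 : ℝ) < 16 ^ k := by positivity
  have h3 : 0 ≤ (l / 16 ^ k - 1) / 15 := by
    apply div_nonneg _ (by norm_num)
    rw [sub_nonneg, one_le_div hk]
    exact h1
  have h5 : (0 : ℝ) < 2 ^ j := by positivity
  have h4 := Nat.floor_le (a := (l / 16 ^ k - 1) / 15 * 2 ^ j) (by positivity)
  have h6 : 15 * (⌊(l / 16 ^ k - 1) / 15 * 2 ^ j⌋₊ : ℝ) / 2 ^ j ≤ l / 16 ^ k - 1 := by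
    rw [div_le_iff₀ h5]
    nlinarith
  calc (16 : ℝ) ^ k * (1 + 15 * (⌊(l / 16 ^ k - 1) / 15 * 2 ^ j⌋₊ : ℝ) / 2 ^ j)
      ≤ 16 ^ k * (1 + (l / 16 ^ k - 1)) := by gcongr
    _ = l := by field_simp; ring

lemma A_idx_gt {k j : ℕ} {l : ℝ} : l - 15 * 16 ^ k / 2 ^ j < A k j (idx k j l) := by
  unfold A idx
  have hk : (0 : ℝ) < 16 ^ k := by positivity
  have h5 : (0 : ℝ) < 2 ^ j := by positivity
  have h4 := Nat.lt_floor_add_one ((l / 16 ^ k - 1) / 15 * 2 ^ j)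
  have h6 : l / 16 ^ k - 1 - 15 / 2 ^ j < 15 * (⌊(l / 16 ^ k - 1) / 15 * 2 ^ j⌋₊ : ℝ) / 2 ^ j := by
    rw [lt_div_iff₀ h5, sub_mul, div_mul_cancel₀ _ h5.ne']
    nlinarith
  calc l - 15 * 16 ^ k / 2 ^ j = 16 ^ k * (1 + (l / 16 ^ k - 1 - 15 / 2 ^ j)) := by
        field_simp
        ring
    _ < _ := by gcongr

lemma idx_zero {k : ℕ} {l : ℝ} (h1 : 16 ^ k ≤ l) (h2 : l < 16 ^ (k + 1)) : idx k 0 l = 0 := by
  have := idx_lt (j := 0) h1 h2
  simpa using this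

lemma chain_fin {f : V → ℂ} (hf : MemLp f 2 volume) (k : ℕ) (l : ℝ) (h1 : 16 ^ k ≤ l)
    (h2 : l < 16 ^ (k + 1)) (p : ℝ × V) (J : ℕ) :
    ‖P f p.1 p.2 (A k J (idx k J l)) - P f p.1 p.2 (16 ^ k)‖ₑ ≤
      ∑ j ∈ Finset.range J, Q f k (j + 1) p := by
  induction J with
  | zero =>
    rw [idx_zero h1 h2, A_zero, sub_self, enorm_zero]
    exact zero_le
  | succ J ih =>
    rw [Finset.sum_range_succ]
    have h3 : ‖P f p.1 p.2 (A k (J + 1) (idx k (J + 1) l)) - P f p.1 p.2 (A k J (idx k J l))‖ₑ ≤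
        Q f k (J + 1) p := by
      rcases idx_succ k J l with h | h
      · rw [h, A_double, sub_self, enorm_zero]
        exact zero_le
      · rw [h, ← A_double k J (idx k J l), P_diff hf _ _ (A_mono _ _ (Nat.le_succ _))]
        apply le_Q
        have h4 := idx_lt (j := J) h1 h2
        rw [pow_succ]
        omega
    calc _ = ‖(P f p.1 p.2 (A k J (idx k J l)) - P f p.1 p.2 (16 ^ k)) +
          (P f p.1 p.2 (A k (J + 1) (idx k (J + 1) l)) - P f p.1 p.2 (A k J (idx k J l)))‖ₑ := by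
          congr 1
          ring
      _ ≤ _ := (enorm_add_le _ _).trans (add_le_add ih h3)

lemma A_idx_tendsto {k : ℕ} {l : ℝ} (h1 : 16 ^ k ≤ l) :
    Tendsto (fun J => A k J (idx k J l)) atTop (𝓝 l) := by
  apply tendsto_of_tendsto_of_tendsto_of_le_of_le (g := fun J => l - 15 * 16 ^ k / 2 ^ J)
    (h := fun _ => l)
  · have h3 : Tendsto (fun J : ℕ => (15 * 16 ^ k : ℝ) * (1 / 2) ^ J) atTop (𝓝 (15 * 16 ^ k * 0)) :=
      (tendsto_pow_atTop_nhds_zero_of_lt_one (by norm_num) (by norm_num)).const_mul _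
    have h4 := h3.const_sub l
    rw [mul_zero, sub_zero] at h4
    refine h4.congr fun J => ?_
    rw [one_div, inv_pow, ← div_eq_mul_inv]
  · exact tendsto_const_nhds
  · intro J
    exact A_idx_gt.le
  · intro J
    exact A_idx_le h1

lemma P_left {f : V → ℂ} (hf : MemLp f 2 volume) (s : ℝ) (x : V) (l : ℝ) (u : ℕ → ℝ)
    (hu : Tendsto u atTop (𝓝 l)) (hul : ∀ n, u n ≤ l) :
    Tendsto (fun n => P f s x (u n)) atTop (𝓝 (P f s x l)) := by
  unfold P c
  simp_rw [← integral_indicator (Ba_meas _)]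
  apply tendsto_integral_of_dominated_convergence ((Ba V l).indicator fun ξ => ‖f ξ‖)
  · intro n
    exact ((integrable_indicator_iff (Ba_meas _)).2 (int_ph (intBa hf (u n)) s x)).aestronglyMeasurable
  · exact (integrable_indicator_iff (Ba_meas _)).2 (intBa hf l).norm
  · intro n
    refine Eventually.of_forall fun ξ => ?_
    by_cases h : ξ ∈ Ba V (u n)
    · have h' : ξ ∈ Ba V l := lt_of_lt_of_le (show ‖ξ‖ ^ 2 < u n from h) (hul n)
      rw [indicator_of_mem h, indicator_of_mem h', norm_mul, norm_ph, one_mul]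
    · rw [indicator_of_notMem h, norm_zero]
      exact indicator_nonneg (fun _ _ => norm_nonneg _) _
  · refine Eventually.of_forall fun ξ => ?_
    by_cases h : ξ ∈ Ba V l
    · have h3 : ∀ᶠ n in atTop, ‖ξ‖ ^ 2 < u n := hu.eventually_const_lt h
      apply tendsto_const_nhds.congr'
      filter_upwards [h3] with n hn
      rw [indicator_of_mem h, indicator_of_mem (show ξ ∈ Ba V (u n) from hn)]
    · have h3 : ∀ n, ξ ∉ Ba V (u n) := fun n hn =>
        h (lt_of_lt_of_le (show ‖ξ‖ ^ 2 < u n from hn) (hul n))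
      apply tendsto_const_nhds.congr
      intro n
      rw [indicator_of_notMem h, indicator_of_notMem (h3 n)]

lemma chain {f : V → ℂ} (hf : MemLp f 2 volume) (k : ℕ) (l : ℝ) (h1 : 16 ^ k ≤ l)
    (h2 : l ≤ 16 ^ (k + 1)) (p : ℝ × V) :
    ‖P f p.1 p.2 l - P f p.1 p.2 (16 ^ k)‖ₑ ≤ M f k p := by
  rcases h2.eq_or_lt with h2 | h2
  · rw [h2, P_diff hf _ _ (pow_le_pow_right₀ (by norm_num) (Nat.le_succ k))]
    have h3 := le_Q f k 0 0 (by norm_num) p
    rw [A_zero, zero_add, A_top] at h3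
    exact h3.trans (ENNReal.le_tsum (f := fun j => Q f k j p) 0)
  · have h3 : Tendsto (fun J => ‖P f p.1 p.2 (A k J (idx k J l)) - P f p.1 p.2 (16 ^ k)‖ₑ) atTop
        (𝓝 ‖P f p.1 p.2 l - P f p.1 p.2 (16 ^ k)‖ₑ) :=
      ((P_left hf p.1 p.2 l _ (A_idx_tendsto h1) (fun n => A_idx_le h1)).sub_const _).enorm
    apply le_of_tendsto' h3
    intro J
    refine (chain_fin hf k l h1 h2 p J).trans ?_
    unfold M
    calc ∑ j ∈ Finset.range J, Q f k (j + 1) p ≤ ∑' j, Q f k (j + 1) p := ENNReal.sum_le_tsum _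
      _ ≤ ∑' j, Q f k j p := ENNReal.tsum_comp_le_tsum_of_injective (Nat.succ_injective) _

lemma chain_blocks {f : V → ℂ} (hf : MemLp f 2 volume) (K k : ℕ) (p : ℝ × V) :
    ‖P f p.1 p.2 (16 ^ (K + k)) - P f p.1 p.2 (16 ^ K)‖ₑ ≤ ∑ i ∈ Finset.range k, M f (K + i) p := by
  induction k with
  | zero => simp
  | succ k ih =>
    rw [Finset.sum_range_succ]
    have h3 := chain hf (K + k) (16 ^ (K + (k + 1))) (pow_le_pow_right₀ (by norm_num) (by omega))
      (by rw [add_assoc]) p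
    calc _ = ‖(P f p.1 p.2 (16 ^ (K + k)) - P f p.1 p.2 (16 ^ K)) +
          (P f p.1 p.2 (16 ^ (K + (k + 1))) - P f p.1 p.2 (16 ^ (K + k)))‖ₑ := by
          congr 1
          ring
      _ ≤ _ := (enorm_add_le _ _).trans (add_le_add ih h3)

lemma exists_block (K : ℕ) (l : ℝ) (hl : 16 ^ K ≤ l) :
    ∃ k : ℕ, 16 ^ (K + k) ≤ l ∧ l < 16 ^ (K + k + 1) := by
  obtain ⟨n, h1, h2⟩ := exists_nat_pow_near (x := l) (y := (16 : ℝ))
    ((one_le_pow₀ (by norm_num)).trans hl) (by norm_num)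
  have h3 : K ≤ n := by
    by_contra h
    push Not at h
    have : (16 : ℝ) ^ (n + 1) ≤ 16 ^ K := pow_le_pow_right₀ (by norm_num) h
    linarith
  refine ⟨n - K, ?_, ?_⟩
  · rwa [show K + (n - K) = n by omega]
  · rwa [show K + (n - K) + 1 = n + 1 by omega]

/-- the difference from a full block -/
theorem tail {f : V → ℂ} (hf : MemLp f 2 volume) (K : ℕ) (l : ℝ) (hl : 16 ^ K ≤ l) (p : ℝ × V) :
    ‖P f p.1 p.2 l - P f p.1 p.2 (16 ^ K)‖ₑ ≤ ∑' i, M f (K + i) p := by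
  obtain ⟨k, h1, h2⟩ := exists_block K l hl
  have h3 := chain hf (K + k) l h1 h2.le p
  have h4 := chain_blocks hf K k p
  calc _ = ‖(P f p.1 p.2 (16 ^ (K + k)) - P f p.1 p.2 (16 ^ K)) +
          (P f p.1 p.2 l - P f p.1 p.2 (16 ^ (K + k)))‖ₑ := by
          congr 1
          ring
    _ ≤ ∑ i ∈ Finset.range k, M f (K + i) p + M f (K + k) p :=
        (enorm_add_le _ _).trans (add_le_add h4 h3)
    _ = ∑ i ∈ Finset.range (k + 1), M f (K + i) p := by rw [Finset.sum_range_succ]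
    _ ≤ _ := ENNReal.sum_le_tsum _

/-- the majorant of all partial integrals -/
theorem sup_le {f : V → ℂ} (hf : MemLp f 2 volume) (l : ℝ) (p : ℝ × V) :
    ‖P f p.1 p.2 l‖ₑ ≤ (∫⁻ ξ in Ba V 1, ‖f ξ‖ₑ) + ∑' i, M f i p := by
  have h0 : ∀ l' : ℝ, l' ≤ 1 → ‖P f p.1 p.2 l'‖ₑ ≤ ∫⁻ ξ in Ba V 1, ‖f ξ‖ₑ := by
    intro l' hl'
    unfold P c
    refine (enorm_integral_le_lintegral_enorm _).trans ?_
    calc ∫⁻ ξ in Ba V l', ‖ph p.1 p.2 ξ * f ξ‖ₑ = ∫⁻ ξ in Ba V l', ‖f ξ‖ₑ := by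
          apply lintegral_congr
          intro ξ
          rw [enorm_mul, ← ofReal_norm_eq_enorm, norm_ph, ENNReal.ofReal_one, one_mul]
      _ ≤ _ := lintegral_mono_set fun ξ hξ => lt_of_lt_of_le (show ‖ξ‖ ^ 2 < l' from hξ) hl'
  rcases le_total l 1 with h | h
  · exact (h0 l h).trans le_self_add
  · have h1 := tail hf 0 l (by simpa using h) p
    simp only [pow_zero, zero_add] at h1
    calc ‖P f p.1 p.2 l‖ₑ = ‖P f p.1 p.2 1 + (P f p.1 p.2 l - P f p.1 p.2 1)‖ₑ := by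
          congr 1
          ring
      _ ≤ _ := (enorm_add_le _ _).trans (add_le_add (h0 1 le_rfl) h1)

/-- convergence where the majorant is finite -/
theorem conv {f : V → ℂ} (hf : MemLp f 2 volume) (p : ℝ × V) (hp : ∑' i, M f i p ≠ ⊤) :
    ∃ z : ℂ, Tendsto (fun l => P f p.1 p.2 l) atTop (𝓝 z) := by
  apply cauchy_map_iff_exists_tendsto.1
  rw [Metric.cauchy_iff]
  refine ⟨inferInstance, fun ε hε => ?_⟩
  have h1 : Tendsto (fun K => ∑' i, M f (i + K) p) atTop (𝓝 0) :=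
    ENNReal.tendsto_sum_nat_add (fun i => M f i p) hp
  have h2 : ∀ᶠ K in atTop, ∑' i, M f (i + K) p < ENNReal.ofReal (ε / 2) :=
    h1.eventually_lt_const (by simpa using half_pos hε)
  obtain ⟨K, hK⟩ := h2.exists
  refine ⟨(fun l => P f p.1 p.2 l) '' Ici (16 ^ K), image_mem_map (Ici_mem_atTop _), ?_⟩
  rintro _ ⟨l, hl, rfl⟩ _ ⟨l', hl', rfl⟩
  have h3 : ∀ l : ℝ, l ∈ Ici ((16 : ℝ) ^ K) → dist (P f p.1 p.2 l) (P f p.1 p.2 (16 ^ K)) < ε / 2 := by
    intro l hl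
    have h4 := tail hf K l hl p
    simp_rw [add_comm K] at h4
    have h5 := h4.trans_lt hK
    rw [dist_eq_norm]
    rw [← ofReal_norm_eq_enorm] at h5
    exact (ENNReal.ofReal_lt_ofReal_iff (half_pos hε)).1 h5
  calc dist (P f p.1 p.2 l) (P f p.1 p.2 l') ≤ dist (P f p.1 p.2 l) (P f p.1 p.2 (16 ^ K)) +
        dist (P f p.1 p.2 l') (P f p.1 p.2 (16 ^ K)) := dist_triangle_right _ _ _
    _ < ε / 2 + ε / 2 := add_lt_add (h3 l hl) (h3 l' hl')
    _ = ε := by ring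

end Pool.Agent.Q261.ST
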