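import Mathlib
import Pool.Agent.Q261.ST.Chain
set_option autoImplicit false

/-! The maximal inequality. -/

namespace Pool.Agent.Q261.ST

open MeasureTheory Complex Set Filter Topology
open scoped ENNReal NNReal RealInnerProductSpace

variable {V : Type*} [NormedAddCommGroup V] [InnerProductSpace ℝ V] [FiniteDimensional ℝ V]
  [MeasurableSpace V] [BorelSpace V]

/-- Cauchy-Schwarz for series with weights -/
lemma cs_tsum {ι : Type*} [Countable ι] (u : ι → ℝ≥0∞) (α : ι → ℝ) (hα : ∀ i, 0 < α i) :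
    (∑' i, u i) ^ 2 ≤ (∑' i, ENNReal.ofReal (α i)) * ∑' i, u i ^ 2 / ENNReal.ofReal (α i) := by
  let _ : MeasurableSpace ι := ⊤
  have _ : MeasurableSingletonClass ι := ⟨fun _ => trivial⟩
  have h := ENNReal.lintegral_mul_le_Lp_mul_Lq (Measure.count : Measure ι)
    (p := 2) (q := 2) (Real.HolderConjugate.two_two)
    (f := fun i => ENNReal.ofReal (α i) ^ (1 / 2 : ℝ))
    (g := fun i => u i / ENNReal.ofReal (α i) ^ (1 / 2 : ℝ))
    (measurable_from_top.aemeasurable) (measurable_from_top.aemeasurable)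
  simp only [lintegral_count, Pi.mul_apply] at h
  have h1 : ∀ i, ENNReal.ofReal (α i) ^ (1 / 2 : ℝ) * (u i / ENNReal.ofReal (α i) ^ (1 / 2 : ℝ)) = u i := by
    intro i
    apply ENNReal.mul_div_cancel
    · rw [Ne, ENNReal.rpow_eq_zero_iff_of_pos (by norm_num)]
      simpa using hα i
    · exact ENNReal.rpow_ne_top_of_nonneg (by norm_num) ENNReal.ofReal_ne_top
  have h2 : ∀ i, (ENNReal.ofReal (α i) ^ (1 / 2 : ℝ)) ^ (2 : ℝ) = ENNReal.ofReal (α i) := by
    intro i
    rw [← ENNReal.rpow_mul]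
    norm_num
  have h3 : ∀ i, (u i / ENNReal.ofReal (α i) ^ (1 / 2 : ℝ)) ^ (2 : ℝ) = u i ^ 2 / ENNReal.ofReal (α i) := by
    intro i
    rw [ENNReal.div_rpow_of_nonneg _ _ (by norm_num), h2, ENNReal.rpow_two]
  simp_rw [h1, h2, h3] at h
  calc (∑' i, u i) ^ 2 ≤ ((∑' i, ENNReal.ofReal (α i)) ^ (1 / 2 : ℝ) *
        (∑' i, u i ^ 2 / ENNReal.ofReal (α i)) ^ (1 / 2 : ℝ)) ^ 2 := by gcongr
    _ = _ := by
        rw [mul_pow, ← ENNReal.rpow_natCast, ← ENNReal.rpow_mul, ← ENNReal.rpow_natCast,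
          ← ENNReal.rpow_mul]
        norm_num

/-- the weights in the levels -/
noncomputable def th (k j : ℕ) : ℝ := if j < 2 * k + 1 then 1 else (17 / 20) ^ (j - 2 * k)

lemma th_pos (k j : ℕ) : 0 < th k j := by
  unfold th
  split_ifs <;> positivity

lemma sqrt_tau_le (k j : ℕ) : Real.sqrt (tau k j) ≤ th k j ^ 2 := by
  rw [Real.sqrt_le_left (by positivity)]
  unfold th tau
  split_ifs with h
  · simp
  · refine (min_le_right _ _).trans ?_
    push Not at h
    obtain ⟨i, rfl⟩ : ∃ i, j = 2 * k + i := ⟨j - 2 * k, by omega⟩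
    rw [show 2 * k + i - 2 * k = i by omega, ← pow_mul, ← pow_mul, mul_comm i, mul_comm (2 * _) i,
      pow_add, pow_mul]
    have h1 : (4 : ℝ) ^ k / ((2 ^ 2) ^ k * 2 ^ i) = (1 / 2) ^ i := by
      rw [one_div, inv_pow, show ((2 : ℝ) ^ 2) = 4 by norm_num, div_mul_eq_div_div,
        div_self (by positivity), one_div]
    rw [h1, mul_comm i, pow_mul]
    apply pow_le_pow_left₀ (by norm_num)
    norm_num

lemma th_sum (k : ℕ) : ∑' j, ENNReal.ofReal (th k j) ≤ ENNReal.ofReal (7 * (k + 1)) := by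
  have h1 : ∑' j, ENNReal.ofReal (th k j) = ∑ j ∈ Finset.range (2 * k + 1), ENNReal.ofReal (th k j) +
      ∑' i, ENNReal.ofReal (th k (i + (2 * k + 1))) :=
    (Summable.sum_add_tsum_nat_add' ENNReal.summable).symm
  rw [h1]
  have h2 : ∑ j ∈ Finset.range (2 * k + 1), ENNReal.ofReal (th k j) = ENNReal.ofReal (2 * k + 1) := by
    rw [Finset.sum_congr rfl (g := fun _ => (1 : ℝ≥0∞)) (fun j hj => by
      unfold th
      rw [if_pos (Finset.mem_range.1 hj), ENNReal.ofReal_one])]
    simp only [Finset.sum_const, Finset.card_range, nsmul_eq_mul, mul_one]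
    rw [← ENNReal.ofReal_natCast]
    push_cast
    rfl
  have h3 : ∀ i, th k (i + (2 * k + 1)) = 17 / 20 * (17 / 20) ^ i := by
    intro i
    unfold th
    rw [if_neg (by omega), show i + (2 * k + 1) - 2 * k = i + 1 by omega, pow_succ, mul_comm]
  have h4 : ∑' i, ENNReal.ofReal (th k (i + (2 * k + 1))) ≤ ENNReal.ofReal 6 := by
    have h5 : Summable (fun i : ℕ => (17 / 20 : ℝ) * (17 / 20) ^ i) :=
      (summable_geometric_of_lt_one (by norm_num) (by norm_num)).mul_left _
    simp_rw [h3]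
    rw [← ENNReal.ofReal_tsum_of_nonneg (fun i => by positivity) h5]
    apply ENNReal.ofReal_le_ofReal
    rw [tsum_mul_left, tsum_geometric_of_lt_one (by norm_num) (by norm_num)]
    norm_num
  rw [h2]
  calc _ ≤ ENNReal.ofReal (2 * k + 1) + ENNReal.ofReal 6 := add_le_add le_rfl h4
    _ = ENNReal.ofReal (2 * k + 1 + 6) := (ENNReal.ofReal_add (by positivity) (by norm_num)).symm
    _ ≤ _ := by
        apply ENNReal.ofReal_le_ofReal
        have : (0 : ℝ) ≤ k := Nat.cast_nonneg k
        linarith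

/-- continuity of the oscillatory integrals -/
lemma continuous_c (μ : Measure V) (f : V → ℂ) (hf : Integrable f μ) :
    Continuous (fun p : ℝ × V => c μ f p.1 p.2) := by
  unfold c
  apply continuous_of_dominated (bound := fun ξ => ‖f ξ‖)
  · intro p
    have hpm : AEStronglyMeasurable (fun ξ : V => ph p.1 p.2 ξ) μ := by
      apply Continuous.aestronglyMeasurable
      unfold ph
      fun_prop
    exact hpm.mul hf.aestronglyMeasurable
  · intro p
    exact Eventually.of_forall fun ξ => by rw [norm_mul, norm_ph, one_mul]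
  · exact hf.norm
  · refine Eventually.of_forall fun ξ => ?_
    unfold ph
    fun_prop

lemma measurable_Q2 {f : V → ℂ} (hf : MemLp f 2 volume) (k j : ℕ) : Measurable (Q2 f k j) := by
  unfold Q2
  apply Finset.measurable_sum
  intro i _
  exact ((continuous_c _ f (intSh hf _ _)).measurable.enorm).pow_const 2

lemma measurable_Q {f : V → ℂ} (hf : MemLp f 2 volume) (k j : ℕ) : Measurable (Q f k j) := by
  unfold Q
  exact (measurable_Q2 hf k j).pow_const _

lemma measurable_M {f : V → ℂ} (hf : MemLp f 2 volume) (k : ℕ) : Measurable (M f k) := by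
  unfold M
  exact Measurable.ennreal_tsum fun j => measurable_Q hf k j

/-- the weight measure on space and time -/
noncomputable def wm (V : Type*) [NormedAddCommGroup V] [InnerProductSpace ℝ V]
    [FiniteDimensional ℝ V] [MeasurableSpace V] [BorelSpace V] (ν : Measure ℝ) :
    Measure (ℝ × V) := ν.prod (volume.withDensity fun x => ENNReal.ofReal (wt x))

lemma lint_wm (ν : Measure ℝ) [IsFiniteMeasure ν] (F : ℝ × V → ℝ≥0∞) (hF : Measurable F) :
    ∫⁻ p, F p ∂(wm V ν) = ∫⁻ p, F p * ENNReal.ofReal (wt p.2) ∂(ν.prod volume) := by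
  have hw : Measurable (fun x : V => ENNReal.ofReal (wt x)) := continuous_wt.measurable.ennreal_ofReal
  unfold wm
  have hsf : SFinite (volume.withDensity fun x : V => ENNReal.ofReal (wt x)) := by infer_instance
  rw [lintegral_prod _ hF.aemeasurable, lintegral_prod]
  · apply lintegral_congr
    intro s
    have h1 := lintegral_withDensity_eq_lintegral_mul (volume : Measure V) hw
      (hF.comp (measurable_prodMk_left (x := s)))
    refine h1.trans (lintegral_congr fun x => ?_)
    simp only [Pi.mul_apply, Function.comp_apply]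
    rw [mul_comm]
  · exact (hF.mul (hw.comp measurable_snd)).aemeasurable

/-- the block energy -/
noncomputable def En (f : V → ℂ) (k : ℕ) : ℝ≥0∞ := ∫⁻ ξ in Sh V (16 ^ k) (16 ^ (k + 1)), ‖f ξ‖ₑ ^ 2

lemma En_sum (f : V → ℂ) : ∑' k, En f k ≤ ∫⁻ ξ, ‖f ξ‖ₑ ^ 2 := by
  unfold En
  rw [← lintegral_iUnion (fun k => Sh_meas _ _)]
  · exact setLIntegral_le_lintegral _ _
  · intro k k' hkk
    rw [Function.onFun, disjoint_left]
    intro ξ h1 h2
    rcases lt_or_gt_of_ne hkk with h | h
    · have h3 : (16 : ℝ) ^ (k + 1) ≤ 16 ^ k' := pow_le_pow_right₀ (by norm_num) h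
      linarith [h1.2, h2.1]
    · have h3 : (16 : ℝ) ^ (k' + 1) ≤ 16 ^ k := pow_le_pow_right₀ (by norm_num) h
      linarith [h1.1, h2.2]

lemma parts_sum (f : V → ℂ) (k j : ℕ) :
    ∑ i ∈ Finset.range (2 ^ j), ∫⁻ ξ in Sh V (A k j i) (A k j (i + 1)), ‖f ξ‖ₑ ^ 2 ≤ En f k := by
  unfold En
  rw [← lintegral_biUnion_finset]
  · apply lintegral_mono_set
    intro ξ hξ
    simp only [mem_iUnion, exists_prop, Finset.mem_range] at hξ
    obtain ⟨i, hi, h1, h2⟩ := hξ
    exact ⟨(A_ge k j i).trans h1, h2.trans_le (A_le k j (i + 1) hi)⟩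
  · intro i _ i' _ hii
    rw [Function.onFun, disjoint_left]
    intro ξ h1 h2
    rcases lt_or_gt_of_ne hii with h | h
    · have h3 := A_mono k j (show i + 1 ≤ i' from h)
      linarith [h1.2, h2.1]
    · have h3 := A_mono k j (show i' + 1 ≤ i from h)
      linarith [h1.1, h2.2]
  · intro i _
    exact Sh_meas _ _

/-- the assumption on the measure in time -/
structure Good (ν : Measure ℝ) (h a : ℕ → ℝ) : Prop where
  apos : ∀ k, 0 < a k
  hpos : ∀ k, 0 ≤ h k
  ball : ∀ k s, ν (Metric.closedBall s ((1 / 2) ^ k)) ≤ ENNReal.ofReal (h k)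
  le : ∀ k, ν.real univ * (h k + ν.real univ * Real.exp (-(2 * 4 ^ k))) ≤ a k

/-- the square sums at one level -/
lemma level {f : V → ℂ} (hf : MemLp f 2 volume) (ν : Measure ℝ) [IsFiniteMeasure ν]
    {h a : ℕ → ℝ} (hg : Good ν h a) (k j : ℕ) :
    ∫⁻ p, Q2 f k j p ∂(wm V ν) ≤ ENNReal.ofReal (C0 V * Real.sqrt (a k * tau k j)) * En f k := by
  rw [lint_wm ν _ (measurable_Q2 hf k j)]
  unfold Q2
  simp_rw [Finset.sum_mul]
  rw [lintegral_finsetSum]
  · calc ∑ i ∈ Finset.range (2 ^ j), ∫⁻ p : ℝ × V,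
          ‖pc f p.1 p.2 (A k j i) (A k j (i + 1))‖ₑ ^ 2 * ENNReal.ofReal (wt p.2) ∂(ν.prod volume)
        ≤ ∑ i ∈ Finset.range (2 ^ j), ENNReal.ofReal (C0 V * Real.sqrt (a k * tau k j)) *
          ∫⁻ ξ in Sh V (A k j i) (A k j (i + 1)), ‖f ξ‖ₑ ^ 2 := by
          apply Finset.sum_le_sum
          intro i hi
          have hi' := Finset.mem_range.1 hi
          apply schur _ ν f (intSh hf _ _) _ (Sh V (A k j i) (A k j (i + 1)))
            (ae_restrict_mem (Sh_meas _ _))
          intro ξ hξ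
          exact ker_bound ν k j (h k) (a k) (hg.apos k) (hg.hpos k) (hg.ball k) (hg.le k)
            (A k j i) (A k j (i + 1)) (A_ge k j i) (A_mono k j (Nat.le_succ i)) (A_le k j (i + 1) hi')
            (A_step k j i).le ξ ((A_ge k j i).trans hξ.1)
      _ = ENNReal.ofReal (C0 V * Real.sqrt (a k * tau k j)) *
          ∑ i ∈ Finset.range (2 ^ j), ∫⁻ ξ in Sh V (A k j i) (A k j (i + 1)), ‖f ξ‖ₑ ^ 2 := by
          rw [Finset.mul_sum]
      _ ≤ _ := mul_le_mul' le_rfl (parts_sum f k j)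
  · intro i _
    exact (((continuous_c _ f (intSh hf _ _)).measurable.enorm).pow_const 2).mul
      ((continuous_wt.measurable.comp measurable_snd).ennreal_ofReal)

/-- the total majorant is square integrable -/
theorem total {f : V → ℂ} (hf : MemLp f 2 volume) (ν : Measure ℝ) [IsFiniteMeasure ν]
    {h a : ℕ → ℝ} (hg : Good ν h a) (S : ℝ) (hS : 0 ≤ S)
    (hsum : ∑' k : ℕ, ENNReal.ofReal ((k + 1) ^ 2 * Real.sqrt (a k)) ≤ ENNReal.ofReal S) :
    ∫⁻ p, (∑' k, M f k p) ^ 2 ∂(wm V ν) ≤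
      ENNReal.ofReal (49 * C0 V * S) * ∫⁻ ξ, ‖f ξ‖ₑ ^ 2 := by
  have hC := C0_pos (V := V)
  set α : ℕ × ℕ → ℝ := fun i => (i.1 + 1) * Real.sqrt (a i.1) * th i.1 i.2 with hα
  have hα0 : ∀ i, 0 < α i := by
    intro i
    have h1 := th_pos i.1 i.2
    have h2 : 0 < Real.sqrt (a i.1) := Real.sqrt_pos.2 (hg.apos i.1)
    positivity
  have hM : ∀ p : ℝ × V, ∑' k, M f k p = ∑' i : ℕ × ℕ, Q f i.1 i.2 p := by
    intro p
    exact (ENNReal.tsum_prod (f := fun k j => Q f k j p)).symm
  have h1 : ∑' i : ℕ × ℕ, ENNReal.ofReal (α i) ≤ ENNReal.ofReal (7 * S) := by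
    rw [show ∑' i : ℕ × ℕ, ENNReal.ofReal (α i) = ∑' k : ℕ, ∑' j : ℕ, ENNReal.ofReal (α (k, j)) from
      ENNReal.tsum_prod (f := fun k j => ENNReal.ofReal (α (k, j)))]
    calc ∑' k : ℕ, ∑' j : ℕ, ENNReal.ofReal (α (k, j))
        ≤ ∑' k : ℕ, ENNReal.ofReal 7 * ENNReal.ofReal ((k + 1) ^ 2 * Real.sqrt (a k)) := by
          apply ENNReal.tsum_le_tsum
          intro k
          have h2 : 0 ≤ Real.sqrt (a k) := Real.sqrt_nonneg _
          calc ∑' j : ℕ, ENNReal.ofReal (α (k, j)) =
                ENNReal.ofReal ((k + 1) * Real.sqrt (a k)) * ∑' j, ENNReal.ofReal (th k j) := by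
                rw [← ENNReal.tsum_mul_left]
                congr 1
                funext j
                rw [← ENNReal.ofReal_mul (by positivity)]
            _ ≤ ENNReal.ofReal ((k + 1) * Real.sqrt (a k)) * ENNReal.ofReal (7 * (k + 1)) :=
                mul_le_mul' le_rfl (th_sum k)
            _ = _ := by
                rw [← ENNReal.ofReal_mul (by positivity), ← ENNReal.ofReal_mul (by norm_num)]
                congr 1
                ring
      _ = ENNReal.ofReal 7 * ∑' k : ℕ, ENNReal.ofReal ((k + 1) ^ 2 * Real.sqrt (a k)) :=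
          ENNReal.tsum_mul_left
      _ ≤ ENNReal.ofReal 7 * ENNReal.ofReal S := mul_le_mul' le_rfl hsum
      _ = _ := (ENNReal.ofReal_mul (by norm_num)).symm
  have h2 : ∫⁻ p, (∑' i : ℕ × ℕ, Q f i.1 i.2 p ^ 2 / ENNReal.ofReal (α i)) ∂(wm V ν) ≤
      ENNReal.ofReal (7 * C0 V) * ∫⁻ ξ, ‖f ξ‖ₑ ^ 2 := by
    rw [lintegral_tsum]
    · calc ∑' i : ℕ × ℕ, ∫⁻ p, Q f i.1 i.2 p ^ 2 / ENNReal.ofReal (α i) ∂(wm V ν)
          ≤ ∑' i : ℕ × ℕ, ENNReal.ofReal (C0 V / (i.1 + 1) * th i.1 i.2) * En f i.1 := by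
            apply ENNReal.tsum_le_tsum
            intro i
            have h3 := level hf ν hg i.1 i.2
            simp_rw [Q_sq]
            calc ∫⁻ p, Q2 f i.1 i.2 p / ENNReal.ofReal (α i) ∂(wm V ν)
                = (∫⁻ p, Q2 f i.1 i.2 p ∂(wm V ν)) / ENNReal.ofReal (α i) := by
                  simp_rw [ENNReal.div_eq_inv_mul]
                  rw [lintegral_const_mul' _ _ (by simpa using hα0 i)]
              _ ≤ (ENNReal.ofReal (C0 V * Real.sqrt (a i.1 * tau i.1 i.2)) * En f i.1) /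
                  ENNReal.ofReal (α i) := ENNReal.div_le_div_right h3 _
              _ = ENNReal.ofReal (C0 V * Real.sqrt (a i.1 * tau i.1 i.2) / α i) * En f i.1 := by
                  rw [ENNReal.ofReal_div_of_pos (hα0 i), ENNReal.div_eq_inv_mul,
                    ENNReal.div_eq_inv_mul, mul_assoc]
              _ ≤ _ := by
                  refine mul_le_mul' (ENNReal.ofReal_le_ofReal ?_) le_rfl
                  have h4 : 0 < Real.sqrt (a i.1) := Real.sqrt_pos.2 (hg.apos i.1)
                  have h5 := th_pos i.1 i.2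
                  have h6 := sqrt_tau_le i.1 i.2
                  rw [div_le_iff₀ (hα0 i), Real.sqrt_mul (hg.apos i.1).le]
                  simp only [hα]
                  have h7 : C0 V / (i.1 + 1) * th i.1 i.2 * ((i.1 + 1) * Real.sqrt (a i.1) * th i.1 i.2) =
                      C0 V * (Real.sqrt (a i.1) * th i.1 i.2 ^ 2) := by
                    field_simp
                  rw [h7]
                  gcongr
        _ = ∑' k : ℕ, ∑' j : ℕ, ENNReal.ofReal (C0 V / (k + 1) * th k j) * En f k :=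
            ENNReal.tsum_prod (f := fun (k j : ℕ) => ENNReal.ofReal (C0 V / (k + 1) * th k j) * En f k)
        _ ≤ ∑' k : ℕ, ENNReal.ofReal (7 * C0 V) * En f k := by
            apply ENNReal.tsum_le_tsum
            intro k
            rw [ENNReal.tsum_mul_right]
            refine mul_le_mul' ?_ le_rfl
            calc ∑' j : ℕ, ENNReal.ofReal (C0 V / (k + 1) * th k j) =
                  ENNReal.ofReal (C0 V / (k + 1)) * ∑' j, ENNReal.ofReal (th k j) := by
                  rw [← ENNReal.tsum_mul_left]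
                  congr 1
                  funext j
                  rw [← ENNReal.ofReal_mul (by positivity)]
              _ ≤ ENNReal.ofReal (C0 V / (k + 1)) * ENNReal.ofReal (7 * (k + 1)) :=
                  mul_le_mul' le_rfl (th_sum k)
              _ = _ := by
                  rw [← ENNReal.ofReal_mul (by positivity)]
                  congr 1
                  field_simp
        _ = ENNReal.ofReal (7 * C0 V) * ∑' k : ℕ, En f k := ENNReal.tsum_mul_left
        _ ≤ _ := mul_le_mul' le_rfl (En_sum f)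
    · intro i
      exact (((measurable_Q hf i.1 i.2).pow_const 2).div_const _).aemeasurable
  calc ∫⁻ p, (∑' k, M f k p) ^ 2 ∂(wm V ν)
      ≤ ∫⁻ p, ENNReal.ofReal (7 * S) * (∑' i : ℕ × ℕ, Q f i.1 i.2 p ^ 2 / ENNReal.ofReal (α i)) ∂(wm V ν) := by
        apply lintegral_mono
        intro p
        beta_reduce
        rw [hM p]
        exact (cs_tsum _ α hα0).trans (mul_le_mul' h1 le_rfl)
    _ = ENNReal.ofReal (7 * S) * ∫⁻ p, (∑' i : ℕ × ℕ, Q f i.1 i.2 p ^ 2 / ENNReal.ofReal (α i)) ∂(wm V ν) :=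
        lintegral_const_mul' _ _ ENNReal.ofReal_ne_top
    _ ≤ ENNReal.ofReal (7 * S) * (ENNReal.ofReal (7 * C0 V) * ∫⁻ ξ, ‖f ξ‖ₑ ^ 2) :=
        mul_le_mul' le_rfl h2
    _ = _ := by
        rw [← mul_assoc, ← ENNReal.ofReal_mul (by positivity)]
        congr 2
        ring

end Pool.Agent.Q261.ST
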