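import Mathlib
import Pool.Agent.Q261.ST.Main
import Pool.Agent.H744R2.Falc.FrostH
set_option autoImplicit false

/-! The maximal inequality and convergence for spherical partial integrals at generic times. -/

namespace Pool.Agent.Q261.ST

open MeasureTheory Complex Set Filter Topology
open scoped ENNReal NNReal RealInnerProductSpace

variable {V : Type*} [NormedAddCommGroup V] [InnerProductSpace ℝ V] [FiniteDimensional ℝ V]
  [MeasurableSpace V] [BorelSpace V]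

lemma add_sq_le (a b : ℝ≥0∞) : (a + b) ^ 2 ≤ 2 * a ^ 2 + 2 * b ^ 2 := by
  calc (a + b) ^ 2 = a ^ 2 + b ^ 2 + 2 * (a * b) := by ring
    _ ≤ a ^ 2 + b ^ 2 + (a ^ 2 + b ^ 2) := by gcongr; exact two_mul_le a b
    _ = _ := by ring

/-- Cauchy-Schwarz -/
lemma cs_one (μ : Measure V) (f : V → ℂ) (hf : AEStronglyMeasurable f μ) :
    (∫⁻ ξ, ‖f ξ‖ₑ ∂μ) ^ 2 ≤ μ univ * ∫⁻ ξ, ‖f ξ‖ₑ ^ 2 ∂μ := by
  have h := ENNReal.lintegral_mul_le_Lp_mul_Lq μ (p := 2) (q := 2) Real.HolderConjugate.two_two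
    (f := fun _ => 1) (g := fun ξ => ‖f ξ‖ₑ) aemeasurable_const hf.enorm
  simp only [Pi.mul_apply, one_mul, lintegral_const, ENNReal.rpow_two] at h
  rw [one_pow, one_mul] at h
  calc _ ≤ (μ univ ^ (1 / 2 : ℝ) * (∫⁻ ξ, ‖f ξ‖ₑ ^ 2 ∂μ) ^ (1 / 2 : ℝ)) ^ 2 := by gcongr
    _ = _ := by
        rw [mul_pow, ← ENNReal.rpow_natCast, ← ENNReal.rpow_mul, ← ENNReal.rpow_natCast,
          ← ENNReal.rpow_mul]
        norm_num

/-- a Dini type condition on a measure on the times -/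
def LogRegular (ν : Measure ℝ) : Prop :=
  ∃ h : ℕ → ℝ, (∀ k, 0 ≤ h k) ∧
    (∀ k s, ν (Metric.closedBall s ((1 / 2) ^ k)) ≤ ENNReal.ofReal (h k)) ∧
    Summable fun k : ℕ => ((k : ℝ) + 1) ^ 2 * Real.sqrt (h k)

lemma good_of_log (ν : Measure ℝ) [IsFiniteMeasure ν] (hν : LogRegular ν) :
    ∃ (h a : ℕ → ℝ) (S : ℝ), 0 ≤ S ∧ Good ν h a ∧
      ∑' k : ℕ, ENNReal.ofReal ((k + 1) ^ 2 * Real.sqrt (a k)) ≤ ENNReal.ofReal S := by
  obtain ⟨h, h0, hb, hs⟩ := hν
  set m : ℝ := ν.real univ with hm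
  have hm0 : 0 ≤ m := measureReal_nonneg
  set a : ℕ → ℝ := fun k => (m + 1) ^ 2 * (h k + Real.exp (-(4 ^ k))) with ha
  have hG : Good ν h a := by
    refine ⟨fun k => ?_, h0, hb, fun k => ?_⟩
    · have := h0 k
      simp only [ha]
      positivity
    · simp only [ha]
      have h1 := h0 k
      have h2 : Real.exp (-(2 * 4 ^ k)) ≤ Real.exp (-(4 ^ k)) := by
        apply Real.exp_le_exp.2
        have : (0 : ℝ) < 4 ^ k := by positivity
        linarith
      have h3 := Real.exp_pos (-(4 : ℝ) ^ k)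
      have h4 := Real.exp_pos (-(2 * (4 : ℝ) ^ k))
      have h5 : m * m * Real.exp (-(2 * 4 ^ k)) ≤ (m + 1) ^ 2 * Real.exp (-(4 ^ k)) := by
        apply mul_le_mul (by nlinarith) h2 h4.le (by positivity)
      have h6 : m * h k ≤ (m + 1) ^ 2 * h k := by
        apply mul_le_mul_of_nonneg_right _ h1
        nlinarith
      calc m * (h k + m * Real.exp (-(2 * 4 ^ k))) = m * h k + m * m * Real.exp (-(2 * 4 ^ k)) := by ring
        _ ≤ _ := by nlinarith
  have hsum : Summable fun k : ℕ => ((k : ℝ) + 1) ^ 2 * Real.sqrt (a k) := by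
    have h7 : Summable fun k : ℕ => (m + 1) * (((k : ℝ) + 1) ^ 2 * Real.sqrt (h k)) +
        (m + 1) * (5 * (1 / 4) ^ k) :=
      (hs.mul_left _).add (((summable_geometric_of_lt_one (by norm_num) (by norm_num)).mul_left 5).mul_left _)
    refine Summable.of_nonneg_of_le (fun k => by positivity) (fun k => ?_) h7
    have h8 : Real.sqrt (a k) ≤ (m + 1) * (Real.sqrt (h k) + Real.sqrt (Real.exp (-(4 ^ k)))) := by
      simp only [ha]
      rw [Real.sqrt_mul (by positivity), Real.sqrt_sq (by positivity)]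
      gcongr
      rw [Real.sqrt_le_left (by positivity)]
      have h9 := Real.sq_sqrt (h0 k)
      have h10 := Real.sq_sqrt (Real.exp_pos (-(4 : ℝ) ^ k)).le
      have h11 := Real.sqrt_nonneg (h k)
      have h12 := Real.sqrt_nonneg (Real.exp (-(4 : ℝ) ^ k))
      nlinarith
    have h13 : Real.sqrt (Real.exp (-(4 ^ k))) ≤ 5 * (1 / 16) ^ k := by
      rw [Real.sqrt_le_left (by positivity)]
      have h14 : ((4 : ℝ) ^ k) ^ 4 / 24 ≤ Real.exp (4 ^ k) := by
        have h15 := Real.pow_div_factorial_le_exp ((4 : ℝ) ^ k) (by positivity) 4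
        norm_num [Nat.factorial] at h15 ⊢
        exact h15
      have h17 : ((4 : ℝ) ^ k) ^ 4 = (16 ^ k) ^ 2 := by
        rw [← pow_mul, ← pow_mul, mul_comm k 4, mul_comm k 2, pow_mul, pow_mul]
        norm_num
      have h18 : (0 : ℝ) < (16 ^ k) ^ 2 := by positivity
      have h19 : Real.exp (-(4 ^ k)) * ((16 ^ k) ^ 2 / 24) ≤ 1 := by
        rw [Real.exp_neg, inv_mul_le_iff₀ (Real.exp_pos _), mul_one, ← h17]
        exact h14
      have h20 : ((5 : ℝ) * (1 / 16) ^ k) ^ 2 = 25 / (16 ^ k) ^ 2 := by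
        rw [mul_pow, one_div, inv_pow, inv_pow]
        norm_num
        rfl
      rw [h20, le_div_iff₀ h18]
      linarith
    have h21 : ((k : ℝ) + 1) ^ 2 ≤ 4 ^ k := by
      have h22 : (k : ℝ) + 1 ≤ 2 ^ k := by
        have := Nat.lt_two_pow_self (n := k)
        exact_mod_cast this
      calc ((k : ℝ) + 1) ^ 2 ≤ (2 ^ k) ^ 2 := by gcongr
        _ = 4 ^ k := by rw [← pow_mul, mul_comm, pow_mul]; norm_num
    have h23 : (4 : ℝ) ^ k * (1 / 16) ^ k = (1 / 4) ^ k := by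
      rw [← mul_pow]
      norm_num
    calc ((k : ℝ) + 1) ^ 2 * Real.sqrt (a k)
        ≤ ((k : ℝ) + 1) ^ 2 * ((m + 1) * (Real.sqrt (h k) + 5 * (1 / 16) ^ k)) := by
          gcongr
          exact h8.trans (by gcongr)
      _ = (m + 1) * (((k : ℝ) + 1) ^ 2 * Real.sqrt (h k)) +
          (m + 1) * (5 * (((k : ℝ) + 1) ^ 2 * (1 / 16) ^ k)) := by ring
      _ ≤ (m + 1) * (((k : ℝ) + 1) ^ 2 * Real.sqrt (h k)) + (m + 1) * (5 * (4 ^ k * (1 / 16) ^ k)) := by
          gcongr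
      _ = _ := by rw [h23]
  refine ⟨h, a, ∑' k : ℕ, ((k : ℝ) + 1) ^ 2 * Real.sqrt (a k), tsum_nonneg fun k => by positivity, hG, ?_⟩
  rw [← ENNReal.ofReal_tsum_of_nonneg (fun k => by positivity) hsum]


lemma wm_univ (ν : Measure ℝ) [IsFiniteMeasure ν] : wm V ν univ < ⊤ := by
  have h1 := lint_wm (V := V) ν (fun _ => 1) measurable_const
  rw [lintegral_one] at h1
  rw [h1]
  simp only [one_mul]
  rw [lintegral_prod]
  · simp only [lintegral_const]
    exact ENNReal.mul_lt_top (wt_integrable (V := V)).lintegral_lt_top (measure_lt_top _ _)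
  · exact (continuous_wt.measurable.comp measurable_snd).ennreal_ofReal.aemeasurable

/-- the majorant -/
noncomputable def G (f : V → ℂ) (p : ℝ × V) : ℝ≥0∞ := (∫⁻ ξ in Ba V 1, ‖f ξ‖ₑ) + ∑' i, M f i p

lemma measurable_G {f : V → ℂ} (hf : MemLp f 2 volume) : Measurable (G f) := by
  unfold G
  exact (Measurable.ennreal_tsum fun j => measurable_M hf j).const_add _

/-- the weighted maximal inequality -/
theorem weighted (ν : Measure ℝ) [IsFiniteMeasure ν] (hν : LogRegular ν) :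
    ∃ C : ℝ≥0, ∀ f : V → ℂ, MemLp f 2 volume →
      ∫⁻ p, G f p ^ 2 ∂(wm V ν) ≤ C * ∫⁻ ξ, ‖f ξ‖ₑ ^ 2 := by
  obtain ⟨h, a, S, hS, hG, hsum⟩ := good_of_log ν hν
  set C : ℝ≥0∞ := 2 * volume (Ba V 1) * wm V ν univ + 2 * ENNReal.ofReal (49 * C0 V * S) with hC
  have hCt : C ≠ ⊤ := by
    apply ENNReal.add_ne_top.2
    constructor
    · exact ENNReal.mul_ne_top (ENNReal.mul_ne_top ENNReal.ofNat_ne_top (Ba_finite 1).ne) (wm_univ ν).ne
    · exact ENNReal.mul_ne_top ENNReal.ofNat_ne_top ENNReal.ofReal_ne_top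
  refine ⟨C.toNNReal, fun f hf => ?_⟩
  rw [ENNReal.coe_toNNReal hCt]
  have h1 := total hf ν hG S hS hsum
  have h2 := cs_one (volume.restrict (Ba V 1)) f hf.aestronglyMeasurable.restrict
  rw [Measure.restrict_apply_univ] at h2
  have h3 : ∫⁻ ξ in Ba V 1, ‖f ξ‖ₑ ^ 2 ≤ ∫⁻ ξ, ‖f ξ‖ₑ ^ 2 := setLIntegral_le_lintegral _ _
  calc ∫⁻ p, G f p ^ 2 ∂(wm V ν)
      ≤ ∫⁻ p, (2 * (∫⁻ ξ in Ba V 1, ‖f ξ‖ₑ) ^ 2 + 2 * (∑' i, M f i p) ^ 2) ∂(wm V ν) :=
        lintegral_mono fun p => add_sq_le _ _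
    _ = 2 * (∫⁻ ξ in Ba V 1, ‖f ξ‖ₑ) ^ 2 * wm V ν univ + 2 * ∫⁻ p, (∑' i, M f i p) ^ 2 ∂(wm V ν) := by
        rw [lintegral_add_left measurable_const, lintegral_const,
          lintegral_const_mul' _ _ ENNReal.ofNat_ne_top]
    _ ≤ 2 * (volume (Ba V 1) * ∫⁻ ξ, ‖f ξ‖ₑ ^ 2) * wm V ν univ +
          2 * (ENNReal.ofReal (49 * C0 V * S) * ∫⁻ ξ, ‖f ξ‖ₑ ^ 2) := by
        gcongr
        exact h2.trans (mul_le_mul' le_rfl h3)
    _ = _ := by
        rw [hC]
        ring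

lemma sup_G {f : V → ℂ} (hf : MemLp f 2 volume) (p : ℝ × V) (l : ℝ) : ‖P f p.1 p.2 l‖ₑ ≤ G f p :=
  sup_le hf l p

/-- almost everywhere convergence -/
theorem conv_ae (ν : Measure ℝ) [IsFiniteMeasure ν] (hν : LogRegular ν) {f : V → ℂ}
    (hf : MemLp f 2 volume) :
    ∀ᵐ s ∂ν, ∀ᵐ x : V, ∃ z : ℂ, Tendsto (fun l => P f s x l) atTop (𝓝 z) := by
  obtain ⟨C, hC⟩ := weighted (V := V) ν hν
  have h1 := hC f hf
  have hfin : ∫⁻ ξ, ‖f ξ‖ₑ ^ 2 < ⊤ := by
    have h2 := hf.2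
    rw [eLpNorm_lt_top_iff_lintegral_rpow_enorm_lt_top (by norm_num) (by norm_num)] at h2
    simpa using h2
  have h2 : ∫⁻ p, G f p ^ 2 ∂(wm V ν) < ⊤ :=
    h1.trans_lt (ENNReal.mul_lt_top ENNReal.coe_lt_top hfin)
  rw [lint_wm ν _ ((measurable_G hf).pow_const 2)] at h2
  have h3 : ∀ᵐ p ∂(ν.prod (volume : Measure V)), G f p ^ 2 * ENNReal.ofReal (wt p.2) < ⊤ :=
    ae_lt_top (((measurable_G hf).pow_const 2).mul
      (continuous_wt.measurable.comp measurable_snd).ennreal_ofReal) h2.ne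
  have h4 := Measure.ae_ae_of_ae_prod h3
  filter_upwards [h4] with s hs
  filter_upwards [hs] with x hx
  apply conv hf (s, x)
  have h5 : G f (s, x) ≠ ⊤ := by
    intro hcon
    rw [hcon] at hx
    have h6 : ENNReal.ofReal (wt x) ≠ 0 := by simpa using wt_pos x
    have h7 : (⊤ : ℝ≥0∞) ^ 2 * ENNReal.ofReal (wt x) = ⊤ := by
      rw [ENNReal.top_pow (by norm_num), ENNReal.top_mul h6]
    rw [h7] at hx
    exact lt_irrefl _ hx
  unfold G at h5
  exact (ENNReal.add_ne_top.1 h5).2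

/-- Hölder regular measures -/
lemma logRegular_of_power (ν : Measure ℝ) (C γ : ℝ) (hC : 0 ≤ C) (hγ : 0 < γ)
    (h : ∀ (x : ℝ) (r : ℝ), 0 < r → r ≤ 1 → ν (Metric.closedBall x r) ≤ ENNReal.ofReal (C * r ^ γ)) :
    LogRegular ν := by
  refine ⟨fun k => C * ((1 / 2 : ℝ) ^ k) ^ γ, fun k => by positivity, fun k s =>
    h s _ (by positivity) (pow_le_one₀ (by norm_num) (by norm_num)), ?_⟩
  set r : ℝ := (1 / 2 : ℝ) ^ (γ / 2) with hr
  have hr0 : 0 < r := by positivity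
  have hr1 : r < 1 := Real.rpow_lt_one (by norm_num) (by norm_num) (by positivity)
  have h1 : ∀ k : ℕ, Real.sqrt (C * ((1 / 2 : ℝ) ^ k) ^ γ) = Real.sqrt C * r ^ k := by
    intro k
    rw [Real.sqrt_mul hC, hr, Real.sqrt_eq_rpow, Real.sqrt_eq_rpow, ← Real.rpow_natCast,
      ← Real.rpow_mul (by norm_num), ← Real.rpow_mul (by norm_num), ← Real.rpow_natCast,
      ← Real.rpow_mul (by norm_num)]
    congr 2
    ring
  simp_rw [h1]
  have h2 := summable_pow_mul_geometric_of_norm_lt_one (R := ℝ) 2 (r := r) (by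
    rw [Real.norm_eq_abs, abs_of_pos hr0]
    exact hr1)
  have h3 := (summable_nat_add_iff 1).2 h2
  have h4 := h3.mul_left (Real.sqrt C / r)
  refine h4.congr fun k => ?_
  push_cast
  field_simp
  ring

/-- the identification of the line with the one dimensional Euclidean space -/
noncomputable def emb (x : ℝ) : EuclideanSpace ℝ (Fin 1) := WithLp.toLp 2 fun _ => x

lemma emb_isometry : Isometry emb := by
  apply Isometry.of_dist_eq
  intro x y
  rw [EuclideanSpace.dist_eq]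
  simp [emb, Real.dist_eq, Real.sqrt_sq_eq_abs]

lemma emb_surj (y : EuclideanSpace ℝ (Fin 1)) : emb (y 0) = y := by
  ext i
  fin_cases i
  rfl

/-- a Frostman measure on a compact set of positive dimension -/
theorem exists_measure (K : Set ℝ) (hK : IsCompact K) (hd : dimH K ≠ 0) :
    ∃ (ν : Measure ℝ), IsProbabilityMeasure ν ∧ ν Kᶜ = 0 ∧ LogRegular ν := by
  have h0 : 0 < dimH K := pos_iff_ne_zero.2 hd
  obtain ⟨s, hs0, hs⟩ : ∃ s : ℝ, 0 < s ∧ ENNReal.ofReal s < dimH K := by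
    obtain ⟨t, ht0, ht⟩ := exists_between h0
    refine ⟨t.toReal, ENNReal.toReal_pos ht0.ne' (ht.trans_le le_top).ne, ?_⟩
    rwa [ENNReal.ofReal_toReal (ht.trans_le le_top).ne]
  have h1 : ENNReal.ofReal s < dimH (emb '' K) := by
    rwa [emb_isometry.dimH_image]
  obtain ⟨μ, hμ, hμK, C, hC, hb⟩ := H744R2.Falc.frostman_dimH 1 (emb '' K)
    (hK.image emb_isometry.continuous) s hs0.le h1
  have hm : Measurable (fun y : EuclideanSpace ℝ (Fin 1) => y 0) := by fun_prop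
  refine ⟨μ.map fun y => y 0, Measure.isProbabilityMeasure_map hm.aemeasurable, ?_, ?_⟩
  · rw [Measure.map_apply hm hK.measurableSet.compl]
    refine measure_mono_null ?_ hμK
    intro y hy hcon
    apply hy
    obtain ⟨x, hx, rfl⟩ := hcon
    exact hx
  · apply logRegular_of_power _ C s hC.le hs0
    intro x r hr _
    rw [Measure.map_apply hm Metric.isClosed_closedBall.measurableSet]
    refine (measure_mono ?_).trans (hb (emb x) r hr)
    intro y hy
    have h2 : dist (y 0) x ≤ r := hy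
    rw [Metric.mem_closedBall, ← emb_surj y, emb_isometry.dist_eq]
    exact h2

end Pool.Agent.Q261.ST
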